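import Pool.Agent.H300R2.FB.Defs

/-!
Task G5: local factors of quadratic polynomials in Legendre form.
-/

namespace Pool.Agent.H455R2.FB

open Finset Polynomial
open Pool.Agent.H300R2.BH Pool.Agent.H300R2.FB

theorem eval_quad (a b c k : ℤ) : (C a * X ^ 2 + C b * X + C c : ℤ[X]).eval k =
    a * k ^ 2 + b * k + c := by
  simp

theorem rho_zmod (a b c : ℤ) (p : ℕ) [Fact p.Prime] :
    rho (C a * X ^ 2 + C b * X + C c) p =
    ((Finset.univ : Finset (ZMod p)).filter
      (fun x => (a : ZMod p) * x ^ 2 + b * x + c = 0)).card := by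
  have hp0 : 0 < p := (Fact.out : p.Prime).pos
  unfold rho
  refine Finset.card_bij (fun k _ => (k : ZMod p)) ?_ ?_ ?_
  · intro k hk
    rw [Finset.mem_filter] at hk ⊢
    refine ⟨Finset.mem_univ _, ?_⟩
    have h := hk.2
    rw [eval_quad] at h
    have h2 := (ZMod.intCast_zmod_eq_zero_iff_dvd _ p).2 h
    push_cast at h2
    exact h2
  · intro k hk l hl hkl
    rw [Finset.mem_filter, Finset.mem_range] at hk hl
    have h := (ZMod.natCast_eq_natCast_iff' k l p).1 hkl
    rwa [Nat.mod_eq_of_lt hk.1, Nat.mod_eq_of_lt hl.1] at h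
  · intro x hx
    rw [Finset.mem_filter] at hx
    have hv : ((x.val : ℕ) : ZMod p) = x := ZMod.natCast_zmod_val x
    refine ⟨x.val, ?_, hv⟩
    rw [Finset.mem_filter, Finset.mem_range]
    refine ⟨ZMod.val_lt x, ?_⟩
    rw [eval_quad]
    apply (ZMod.intCast_zmod_eq_zero_iff_dvd _ p).1
    push_cast
    rw [hv]
    exact hx.2

/-- G5: local factors of quadratic polynomials -/
theorem quad_odd (a b c : ℤ) (p : ℕ) [Fact p.Prime] (hp : p ≠ 2) :
    (1 - (rho (C a * X ^ 2 + C b * X + C c) p : ℝ) / p) / (1 - 1 / (p : ℝ)) =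
    if (p : ℤ) ∣ a then (if (p : ℤ) ∣ b then (if (p : ℤ) ∣ c then 0 else (p : ℝ) / (p - 1)) else 1)
    else 1 - (legendreSym p (b ^ 2 - 4 * a * c) : ℝ) / (p - 1) := by
  have hpp : p.Prime := Fact.out
  have hp1 : (1 : ℝ) < p := by exact_mod_cast hpp.one_lt
  have hp0 : (p : ℝ) ≠ 0 := by linarith
  have hp2 : (p : ℝ) - 1 ≠ 0 := by linarith
  have hp3 : 1 - 1 / (p : ℝ) ≠ 0 := by
    rw [one_sub_div hp0]
    exact div_ne_zero hp2 hp0
  rw [rho_zmod]
  by_cases ha : (p : ℤ) ∣ a
  · have ha0 : (a : ZMod p) = 0 := (ZMod.intCast_zmod_eq_zero_iff_dvd _ p).2 ha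
    rw [if_pos ha, ha0]
    by_cases hb : (p : ℤ) ∣ b
    · have hb0 : (b : ZMod p) = 0 := (ZMod.intCast_zmod_eq_zero_iff_dvd _ p).2 hb
      rw [if_pos hb, hb0]
      by_cases hc : (p : ℤ) ∣ c
      · have hc0 : (c : ZMod p) = 0 := (ZMod.intCast_zmod_eq_zero_iff_dvd _ p).2 hc
        rw [if_pos hc, hc0]
        have h : ((Finset.univ : Finset (ZMod p)).filter
            (fun x => (0 : ZMod p) * x ^ 2 + 0 * x + 0 = 0)).card = p := by
          rw [Finset.filter_true_of_mem]
          · rw [Finset.card_univ, ZMod.card]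
          · intro x _
            ring
        rw [h, div_self hp0, sub_self, zero_div]
      · have hc0 : (c : ZMod p) ≠ 0 := fun h => hc ((ZMod.intCast_zmod_eq_zero_iff_dvd _ p).1 h)
        rw [if_neg hc]
        have h : ((Finset.univ : Finset (ZMod p)).filter
            (fun x => (0 : ZMod p) * x ^ 2 + 0 * x + (c : ZMod p) = 0)).card = 0 := by
          rw [Finset.card_eq_zero]
          apply Finset.filter_false_of_mem
          intro x _ hx
          apply hc0
          rw [← hx]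
          ring
        rw [h, Nat.cast_zero, zero_div, sub_zero, one_sub_div hp0, one_div_div]
    · have hb0 : (b : ZMod p) ≠ 0 := fun h => hb ((ZMod.intCast_zmod_eq_zero_iff_dvd _ p).1 h)
      rw [if_neg hb]
      have h : ((Finset.univ : Finset (ZMod p)).filter
          (fun x => (0 : ZMod p) * x ^ 2 + (b : ZMod p) * x + (c : ZMod p) = 0)).card = 1 := by
        rw [Finset.card_eq_one]
        refine ⟨-(c : ZMod p) / b, ?_⟩
        ext x
        rw [Finset.mem_filter, Finset.mem_singleton]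
        constructor
        · intro hx
          rw [eq_div_iff hb0]
          linear_combination hx.2
        · intro hx
          refine ⟨Finset.mem_univ _, ?_⟩
          rw [eq_div_iff hb0] at hx
          linear_combination hx
      rw [h, Nat.cast_one, div_self hp3]
  · have ha0 : (a : ZMod p) ≠ 0 := fun h => ha ((ZMod.intCast_zmod_eq_zero_iff_dvd _ p).1 h)
    have h20 : (2 : ZMod p) ≠ 0 := by
      intro h
      have h2 : ((2 : ℕ) : ZMod p) = 0 := by exact_mod_cast h
      rw [ZMod.natCast_eq_zero_iff] at h2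
      exact hp ((Nat.prime_dvd_prime_iff_eq hpp Nat.prime_two).1 h2)
    rw [if_neg ha]
    have hcard := legendreSym.card_sqrts p hp (b ^ 2 - 4 * a * c)
    have h : ((Finset.univ : Finset (ZMod p)).filter
          (fun x => (a : ZMod p) * x ^ 2 + (b : ZMod p) * x + (c : ZMod p) = 0)).card =
        {x : ZMod p | x ^ 2 = ((b ^ 2 - 4 * a * c : ℤ) : ZMod p)}.toFinset.card := by
      refine Finset.card_bij (fun x _ => 2 * (a : ZMod p) * x + b) ?_ ?_ ?_
      · intro x hx
        rw [Finset.mem_filter] at hx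
        rw [Set.mem_toFinset]
        show (2 * (a : ZMod p) * x + b) ^ 2 = _
        push_cast
        linear_combination 4 * (a : ZMod p) * hx.2
      · intro x _ y _ hxy
        have h1 : (2 * (a : ZMod p)) * (x - y) = 0 := by linear_combination hxy
        rcases mul_eq_zero.1 h1 with h1 | h1
        · exact absurd h1 (mul_ne_zero h20 ha0)
        · exact sub_eq_zero.1 h1
      · intro y hy
        rw [Set.mem_toFinset] at hy
        have hy2 : y ^ 2 = ((b ^ 2 - 4 * a * c : ℤ) : ZMod p) := hy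
        push_cast at hy2
        have hk : (2 * (a : ZMod p)) ≠ 0 := mul_ne_zero h20 ha0
        refine ⟨(y - b) / (2 * a), ?_, ?_⟩
        · rw [Finset.mem_filter]
          refine ⟨Finset.mem_univ _, ?_⟩
          have h4 : (4 : ZMod p) * a ≠ 0 := by
            have : (4 : ZMod p) = 2 * 2 := by norm_num
            rw [this]
            exact mul_ne_zero (mul_ne_zero h20 h20) ha0
          apply (mul_eq_zero.1 (?_ : (4 : ZMod p) * a * _ = 0)).resolve_left h4
          field_simp
          linear_combination 4 * hy2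
        · field_simp
          ring
    rw [h]
    have hR : (({x : ZMod p | x ^ 2 = ((b ^ 2 - 4 * a * c : ℤ) : ZMod p)}.toFinset.card : ℕ) : ℝ) =
        (legendreSym p (b ^ 2 - 4 * a * c) : ℝ) + 1 := by
      have := congrArg (fun z : ℤ => (z : ℝ)) hcard
      simpa using this
    rw [hR]
    field_simp
    ring

/-- G5: local factor of quadratic polynomials at `2` -/
theorem quad_two (a b c : ℤ) :
    (1 - (rho (C a * X ^ 2 + C b * X + C c) 2 : ℝ) / (2 : ℕ)) / (1 - 1 / ((2 : ℕ) : ℝ)) =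
    if (2 : ℤ) ∣ a + b then (if (2 : ℤ) ∣ c then 0 else 2) else 1 := by
  have hr : (range 2 : Finset ℕ) = {0, 1} := by decide
  have h0 : (((2 : ℕ) : ℤ) ∣ (C a * X ^ 2 + C b * X + C c : ℤ[X]).eval ((0 : ℕ) : ℤ)) ↔
      (2 : ℤ) ∣ c := by
    rw [eval_quad]
    have : a * ((0 : ℕ) : ℤ) ^ 2 + b * ((0 : ℕ) : ℤ) + c = c := by push_cast; ring
    rw [this]
    rfl
  have h1 : (((2 : ℕ) : ℤ) ∣ (C a * X ^ 2 + C b * X + C c : ℤ[X]).eval ((1 : ℕ) : ℤ)) ↔
      (2 : ℤ) ∣ a + b + c := by
    rw [eval_quad]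
    have : a * ((1 : ℕ) : ℤ) ^ 2 + b * ((1 : ℕ) : ℤ) + c = a + b + c := by push_cast; ring
    rw [this]
    rfl
  have key : rho (C a * X ^ 2 + C b * X + C c) 2 =
      (if (2 : ℤ) ∣ c then 1 else 0) + (if (2 : ℤ) ∣ a + b + c then 1 else 0) := by
    unfold rho
    rw [hr, Finset.filter_insert, Finset.filter_singleton]
    by_cases hc : (2 : ℤ) ∣ c <;> by_cases hd : (2 : ℤ) ∣ a + b + c
    · rw [if_pos (h0.2 hc), if_pos (h1.2 hd), if_pos hc, if_pos hd]; rfl
    · rw [if_pos (h0.2 hc), if_neg (fun h => hd (h1.1 h)), if_pos hc, if_neg hd]; rfl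
    · rw [if_neg (fun h => hc (h0.1 h)), if_pos (h1.2 hd), if_neg hc, if_pos hd]; rfl
    · rw [if_neg (fun h => hc (h0.1 h)), if_neg (fun h => hd (h1.1 h)), if_neg hc, if_neg hd]; rfl
  rw [key]
  by_cases hab : (2 : ℤ) ∣ a + b <;> by_cases hc : (2 : ℤ) ∣ c
  · rw [if_pos hab, if_pos hc, if_pos hc, if_pos (by omega)]; norm_num
  · rw [if_pos hab, if_neg hc, if_neg hc, if_neg (by omega)]; norm_num
  · rw [if_neg hab, if_pos hc, if_neg (by omega)]; norm_num
  · rw [if_neg hab, if_neg hc, if_pos (by omega)]; norm_num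

end Pool.Agent.H455R2.FB
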