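import Mathlib
import Pool.Agent.Helper919.NonRes

/-!
Task X1: sums of Jacobi symbols `(m/n)` over odd `n ≤ N`.
-/

namespace Pool.Agent.H455R2.EC

open Finset

/-- the Jacobi symbol on odd numbers, zero on even numbers -/
def chi (m : ℤ) (n : ℕ) : ℤ := if Odd n then jacobiSym m n else 0

theorem chi_mod (m : ℤ) (n : ℕ) : chi m (n % (4 * m.natAbs)) = chi m n := by
  have hodd : Odd (n % (4 * m.natAbs)) ↔ Odd n := by
    have h := Nat.div_add_mod n (4 * m.natAbs)
    rw [Nat.odd_iff, Nat.odd_iff]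
    generalize hk : n / (4 * m.natAbs) = k at h
    generalize hr : n % (4 * m.natAbs) = r at h
    have h2 : 4 * m.natAbs * k = 2 * (2 * m.natAbs * k) := by ring
    omega
  unfold chi
  by_cases h : Odd n
  · rw [if_pos h, if_pos (hodd.2 h), ← jacobiSym.mod_right m h]
  · rw [if_neg h, if_neg (fun h' => h (hodd.1 h'))]

theorem chi_period (m : ℤ) (n k : ℕ) : chi m (4 * m.natAbs * k + n) = chi m n := by
  rw [← chi_mod m (4 * m.natAbs * k + n), Nat.mul_add_mod, chi_mod]

theorem chi_abs_le (m : ℤ) (n : ℕ) : |chi m n| ≤ 1 := by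
  unfold chi
  by_cases h : Odd n
  · rw [if_pos h]
    rcases jacobiSym.trichotomy m n with h | h | h <;> rw [h] <;> norm_num
  · rw [if_neg h]; norm_num

theorem chi_full (m : ℤ) (hm : ¬ IsSquare m) : ∑ n ∈ range (4 * m.natAbs), chi m n = 0 := by
  obtain ⟨n0, hn0, hJ⟩ := Pool.Agent.Helper919.exists_jacobi_neg_one m hm
  set q := 4 * m.natAbs with hq
  have hm0 : m ≠ 0 := by rintro rfl; exact hm ⟨0, by simp⟩
  have hq0 : 0 < q := by
    have := Int.natAbs_pos.2 hm0
    omega
  have hcop : Nat.Coprime n0 q := by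
    have h1 : Int.gcd m n0 = 1 := by
      by_contra hne
      have hn00 : n0 ≠ 0 := by rintro rfl; simp at hn0
      have : NeZero n0 := ⟨hn00⟩
      have := (jacobiSym.eq_zero_iff_not_coprime (a := m) (b := n0)).2 hne
      rw [this] at hJ
      norm_num at hJ
    have h2 : Nat.Coprime n0 m.natAbs := by
      rw [Nat.coprime_comm]
      have : Int.gcd m n0 = Nat.gcd m.natAbs n0 := by
        simp [Int.gcd]
      rw [this] at h1
      exact h1
    have h3 : Nat.Coprime n0 4 := by
      have : Nat.Coprime n0 2 := by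
        exact Nat.coprime_two_right.2 hn0
      have h4 : (4 : ℕ) = 2 * 2 := rfl
      rw [h4]
      exact Nat.Coprime.mul_right this this
    exact Nat.Coprime.mul_right h3 h2
  have hinj : Set.InjOn (fun n : ℕ => (n0 * n) % q) (range q : Finset ℕ) := by
    intro a ha b hb hab
    simp only [Finset.coe_range, Set.mem_Iio] at ha hb
    have h1 : n0 * a ≡ n0 * b [MOD q] := hab
    have h2 : a ≡ b [MOD q] := Nat.ModEq.cancel_left_of_coprime (by rw [Nat.gcd_comm]; exact hcop) h1
    have h3 : a % q = b % q := h2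
    rwa [Nat.mod_eq_of_lt ha, Nat.mod_eq_of_lt hb] at h3
  have himg : (range q).image (fun n : ℕ => (n0 * n) % q) = range q := by
    apply Finset.eq_of_subset_of_card_le
    · intro x hx
      rw [Finset.mem_image] at hx
      obtain ⟨n, _, rfl⟩ := hx
      rw [Finset.mem_range]
      exact Nat.mod_lt _ hq0
    · rw [Finset.card_image_of_injOn hinj]
  have h1 : ∑ n ∈ range q, chi m n = ∑ n ∈ range q, chi m ((n0 * n) % q) := by
    nth_rw 1 [← himg]
    rw [Finset.sum_image hinj]
  have h2 : ∀ n, chi m ((n0 * n) % q) = - chi m n := by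
    intro n
    rw [hq, chi_mod]
    unfold chi
    by_cases h : Odd n
    · have hnn : n ≠ 0 := by rintro rfl; simp at h
      have hn00 : n0 ≠ 0 := by rintro rfl; simp at hn0
      rw [if_pos h, if_pos (hn0.mul h)]
      have : NeZero n0 := ⟨hn00⟩
      have : NeZero n := ⟨hnn⟩
      rw [jacobiSym.mul_right, hJ]
      ring
    · rw [if_neg h, if_neg, neg_zero]
      intro h'
      rw [Nat.odd_mul] at h'
      exact h h'.2
  rw [Finset.sum_congr rfl (fun n _ => h2 n), Finset.sum_neg_distrib] at h1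
  omega

theorem chi_range (m : ℤ) (hm : ¬ IsSquare m) (k : ℕ) :
    ∑ n ∈ range (4 * m.natAbs * k), chi m n = 0 := by
  induction k with
  | zero => simp
  | succ k ih =>
    rw [Nat.mul_succ, Finset.sum_range_add, ih, zero_add,
      Finset.sum_congr rfl (fun n _ => chi_period m n k)]
    exact chi_full m hm

/-- X1 -/
theorem jac_sum (m : ℤ) (hm : ¬ IsSquare m) (N : ℕ) :
    |∑ n ∈ (Icc 1 N).filter (fun n : ℕ => Odd n), (jacobiSym m n : ℝ)| ≤ 4 * |(m : ℝ)| := by
  have h1 : ∑ n ∈ (Icc 1 N).filter (fun n : ℕ => Odd n), (jacobiSym m n : ℝ) =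
      ((∑ n ∈ range (N + 1), chi m n : ℤ) : ℝ) := by
    rw [Finset.sum_filter]
    have h2 : ∑ n ∈ range (N + 1), chi m n = ∑ n ∈ Icc 1 N, chi m n := by
      rw [Finset.range_eq_Ico, Finset.sum_eq_sum_Ico_succ_bot (Nat.succ_pos N)]
      have h0 : chi m 0 = 0 := by
        unfold chi
        rw [if_neg (by simp)]
      rw [h0, zero_add]
      apply Finset.sum_congr
      · ext x
        simp only [Finset.mem_Ico, Finset.mem_Icc]
        omega
      · intro x _; rfl
    rw [h2]
    push_cast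
    apply Finset.sum_congr rfl
    intro n _
    unfold chi
    split_ifs <;> simp
  rw [h1]
  have hm0 : m ≠ 0 := by rintro rfl; exact hm ⟨0, by simp⟩
  set q := 4 * m.natAbs with hq
  have hq0 : 0 < q := by
    have := Int.natAbs_pos.2 hm0
    omega
  have h3 : ∑ n ∈ range (N + 1), chi m n = ∑ n ∈ range ((N + 1) % q), chi m n := by
    nth_rw 1 [← Nat.div_add_mod (N + 1) q]
    rw [Finset.sum_range_add, chi_range m hm, zero_add]
    exact Finset.sum_congr rfl (fun n _ => chi_period m n _)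
  rw [h3]
  have h4 : |∑ n ∈ range ((N + 1) % q), chi m n| ≤ (q : ℤ) := by
    calc |∑ n ∈ range ((N + 1) % q), chi m n| ≤ ∑ n ∈ range ((N + 1) % q), |chi m n| :=
          Finset.abs_sum_le_sum_abs _ _
      _ ≤ ∑ n ∈ range ((N + 1) % q), 1 := Finset.sum_le_sum (fun n _ => chi_abs_le m n)
      _ = (((N + 1) % q : ℕ) : ℤ) := by simp
      _ ≤ (q : ℤ) := by exact_mod_cast (Nat.mod_lt _ hq0).le
  have h5 : ((|∑ n ∈ range ((N + 1) % q), chi m n| : ℤ) : ℝ) ≤ ((q : ℤ) : ℝ) := by
    exact_mod_cast h4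
  rw [Int.cast_abs] at h5
  refine h5.trans (le_of_eq ?_)
  rw [hq]
  push_cast
  rfl

end Pool.Agent.H455R2.EC
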