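import Mathlib

/-!
Task X11: the counting function of a quadratic polynomial in the form of the problem.
-/

namespace Pool.Agent.H455R2.EC

open Finset

theorem sum_inv_sqrt (K : ℕ) : ∑ m ∈ Icc 1 K, 1 / Real.sqrt (m : ℝ) ≤ 2 * Real.sqrt K := by
  induction K with
  | zero => simp
  | succ K ih =>
    rw [Finset.sum_Icc_succ_top (by omega)]
    have h1 : 1 / Real.sqrt ((K + 1 : ℕ) : ℝ) ≤
        2 * (Real.sqrt ((K + 1 : ℕ) : ℝ) - Real.sqrt K) := by
      have hs : 0 ≤ Real.sqrt (K : ℝ) := Real.sqrt_nonneg _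
      have ht : 0 < Real.sqrt ((K + 1 : ℕ) : ℝ) := Real.sqrt_pos.2 (by positivity)
      have hs2 : Real.sqrt (K : ℝ) ^ 2 = K := Real.sq_sqrt (by positivity)
      have ht2 : Real.sqrt ((K + 1 : ℕ) : ℝ) ^ 2 = K + 1 := by
        rw [Real.sq_sqrt (by positivity)]; push_cast; ring
      have hst : Real.sqrt (K : ℝ) ≤ Real.sqrt ((K + 1 : ℕ) : ℝ) :=
        Real.sqrt_le_sqrt (by push_cast; linarith)
      set s := Real.sqrt (K : ℝ)
      set t := Real.sqrt ((K + 1 : ℕ) : ℝ)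
      rw [div_le_iff₀ ht]
      nlinarith [mul_nonneg (sub_nonneg.2 hst) (sub_nonneg.2 hst)]
    linarith

theorem log_le_sqrt (y m : ℝ) (hy : 0 < y) (hm : 0 < m) :
    Real.log (2 * y ^ 2 / m ^ 2) ≤ 4 * Real.sqrt (2 * y) * (1 / Real.sqrt m) := by
  have h1 : 2 * y ^ 2 / m ^ 2 ≤ (Real.sqrt (2 * y / m)) ^ 4 := by
    have h2 : (Real.sqrt (2 * y / m)) ^ 4 = (2 * y / m) ^ 2 := by
      have : (Real.sqrt (2 * y / m)) ^ 4 = ((Real.sqrt (2 * y / m)) ^ 2) ^ 2 := by ring
      rw [this, Real.sq_sqrt (by positivity)]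
    rw [h2, div_pow]
    apply div_le_div_of_nonneg_right _ (by positivity)
    nlinarith [sq_nonneg y]
  have h3 : Real.log (2 * y ^ 2 / m ^ 2) ≤ Real.log ((Real.sqrt (2 * y / m)) ^ 4) :=
    Real.log_le_log (by positivity) h1
  rw [Real.log_pow] at h3
  have h4 : Real.log (Real.sqrt (2 * y / m)) ≤ Real.sqrt (2 * y / m) := by
    have := Real.log_le_sub_one_of_pos (x := Real.sqrt (2 * y / m))
      (Real.sqrt_pos.2 (by positivity))
    linarith
  have h5 : Real.sqrt (2 * y / m) = Real.sqrt (2 * y) * (1 / Real.sqrt m) := by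
    rw [Real.sqrt_div (by positivity)]; ring
  rw [h5] at h4 h3
  push_cast at h3
  linarith

/-- the core estimate -/
theorem core (U H : ℕ) (a b c : ℤ) (x y L : ℝ) (hL : L = Real.log H) (hL2 : 2 ≤ L)
    (hH : 2 ≤ H) (ha : (H : ℝ) / L ^ U ≤ a) (haH : a ≤ H) (hb : |b| ≤ H) (hc : |c| ≤ H)
    (hx3 : Real.log x ≤ 3 * L) (hx43 : 43 * (H : ℝ) * L ^ (2 * U) < x) (hy0 : 0 < y)
    (hyx : (a : ℝ) * y ^ 2 = x) (hy : 100 * L ^ (U + 2) ≤ y) :
    ∃ K : ℕ, (∀ m : ℕ, 1 ≤ m → (((a * (m : ℤ) ^ 2 + b * m + c : ℤ) : ℝ) < x ↔ m ≤ K)) ∧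
      y - 1 - L ^ U ≤ K ∧ (K : ℝ) ≤ y + 2 * L ^ U ∧
      |∑ m ∈ (Icc 1 K).filter (fun m : ℕ => 2 ≤ a * (m : ℤ) ^ 2 + b * m + c),
        1 / Real.log ((a * (m : ℤ) ^ 2 + b * m + c : ℤ) : ℝ) - y / Real.log x| ≤
      20 / L * (y / Real.log x) := by
  have hHr : (2 : ℝ) ≤ H := by exact_mod_cast hH
  have hH0 : (0 : ℝ) < H := by linarith
  have hL0 : 0 < L := by linarith
  have hLU1 : 1 ≤ L ^ U := one_le_pow₀ (by linarith)
  have hLU0 : 0 < L ^ U := by linarith
  have hapos : (0 : ℝ) < a := lt_of_lt_of_le (div_pos hH0 hLU0) ha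
  have ha1 : (1 : ℝ) ≤ a := by
    have : 0 < a := by exact_mod_cast hapos
    have : 1 ≤ a := this
    exact_mod_cast this
  have haHr : (a : ℝ) ≤ H := by exact_mod_cast haH
  have hHa : (H : ℝ) ≤ a * L ^ U := by rwa [div_le_iff₀ hLU0] at ha
  have hbr : |(b : ℝ)| ≤ H := by exact_mod_cast hb
  have hcr : |(c : ℝ)| ≤ H := by exact_mod_cast hc
  have hb' := abs_le.1 hbr
  have hc' := abs_le.1 hcr
  -- the polynomial
  set f : ℕ → ℤ := fun m => a * (m : ℤ) ^ 2 + b * m + c with hf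
  have hfr : ∀ m : ℕ, ((f m : ℤ) : ℝ) = a * (m : ℝ) ^ 2 + b * m + c := by
    intro m
    simp only [hf]
    push_cast
    ring
  have hlow : ∀ m : ℕ, 1 ≤ m → (a : ℝ) * m * (m - 2 * L ^ U) ≤ f m := by
    intro m hm
    have hm' : (1 : ℝ) ≤ m := by exact_mod_cast hm
    rw [hfr]
    have h1 : -(H : ℝ) * m ≤ b * m := mul_le_mul_of_nonneg_right hb'.1 (by linarith)
    have h2 : (H : ℝ) * m ≤ a * L ^ U * m := mul_le_mul_of_nonneg_right hHa (by linarith)
    have h3 : (H : ℝ) ≤ H * m := le_mul_of_one_le_right hH0.le hm'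
    have h4 : (a : ℝ) * m * (m - 2 * L ^ U) = a * (m : ℝ) ^ 2 - 2 * (a * L ^ U * m) := by ring
    rw [h4]
    linarith [hc'.1]
  have hup : ∀ m : ℕ, 1 ≤ m → (f m : ℝ) ≤ (a : ℝ) * m * (m + 2 * L ^ U) := by
    intro m hm
    have hm' : (1 : ℝ) ≤ m := by exact_mod_cast hm
    rw [hfr]
    have h1 : b * m ≤ (H : ℝ) * m := mul_le_mul_of_nonneg_right hb'.2 (by linarith)
    have h2 : (H : ℝ) * m ≤ a * L ^ U * m := mul_le_mul_of_nonneg_right hHa (by linarith)
    have h3 : (H : ℝ) ≤ H * m := le_mul_of_one_le_right hH0.le hm'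
    have h4 : (a : ℝ) * m * (m + 2 * L ^ U) = a * (m : ℝ) ^ 2 + 2 * (a * L ^ U * m) := by ring
    rw [h4]
    linarith [hc'.2]
  -- threshold
  set M : ℕ := ⌈4 * L ^ U⌉₊ with hM
  have hM4 : 4 * L ^ U ≤ M := Nat.le_ceil _
  have hM1 : 1 ≤ M := by
    have : (1 : ℝ) ≤ M := by linarith
    exact_mod_cast this
  have hM6 : (M : ℝ) ≤ 6 * L ^ U := by
    have := Nat.ceil_lt_add_one (a := 4 * L ^ U) (by positivity)
    rw [← hM] at this
    linarith
  have hbig : ∀ m : ℕ, M ≤ m → (a : ℝ) * (m : ℝ) ^ 2 / 2 ≤ f m := by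
    intro m hm
    have hm' : (M : ℝ) ≤ m := by exact_mod_cast hm
    have h1 := hlow m (hM1.trans hm)
    have h2 : (m : ℝ) / 2 ≤ m - 2 * L ^ U := by linarith
    have h3 : (0 : ℝ) ≤ a * m := by positivity
    have h4 := mul_le_mul_of_nonneg_left h2 h3
    have h5 : (a : ℝ) * m * ((m : ℝ) / 2) = a * (m : ℝ) ^ 2 / 2 := by ring
    linarith
  have hsmall : ∀ m : ℕ, 1 ≤ m → m ≤ M → (f m : ℝ) < x := by
    intro m hm hmM
    have hm' : (m : ℝ) ≤ M := by exact_mod_cast hmM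
    have hm1 : (1 : ℝ) ≤ m := by exact_mod_cast hm
    refine lt_of_le_of_lt ?_ hx43
    rw [hfr]
    have hm6 : (m : ℝ) ≤ 6 * L ^ U := hm'.trans hM6
    have e1 : (a : ℝ) * (m : ℝ) ^ 2 ≤ H * (6 * L ^ U) ^ 2 := by
      apply mul_le_mul haHr _ (by positivity) hH0.le
      exact pow_le_pow_left₀ (by positivity) hm6 2
    have e2 : (b : ℝ) * m ≤ H * (6 * L ^ U) :=
      (mul_le_mul_of_nonneg_right hb'.2 (by linarith)).trans (mul_le_mul_of_nonneg_left hm6 hH0.le)
    have e3 : L ^ (2 * U) = (L ^ U) ^ 2 := by rw [mul_comm, pow_mul]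
    rw [e3]
    have e4 : L ^ U ≤ (L ^ U) ^ 2 := by nlinarith
    have e5 : (1 : ℝ) ≤ (L ^ U) ^ 2 := by nlinarith
    have e6 : H * (6 * L ^ U) ≤ 6 * (H * (L ^ U) ^ 2) := by
      have := mul_le_mul_of_nonneg_left e4 hH0.le
      linarith
    have e7 : (H : ℝ) ≤ H * (L ^ U) ^ 2 := by
      have := mul_le_mul_of_nonneg_left e5 hH0.le
      linarith
    have e8 : (H : ℝ) * (6 * L ^ U) ^ 2 = 36 * (H * (L ^ U) ^ 2) := by ring
    have e9 : 43 * (H : ℝ) * (L ^ U) ^ 2 = 43 * (H * (L ^ U) ^ 2) := by ring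
    rw [e9]
    rw [e8] at e1
    linarith [hc'.2]
  have hmono : ∀ m : ℕ, M ≤ m → f m ≤ f (m + 1) := by
    intro m hm
    have hm' : (M : ℝ) ≤ m := by exact_mod_cast hm
    have h1 : ((f m : ℤ) : ℝ) ≤ ((f (m + 1) : ℤ) : ℝ) := by
      rw [hfr, hfr]
      push_cast
      have h2 : (a : ℝ) * L ^ U ≤ a * (2 * m + 1) :=
        mul_le_mul_of_nonneg_left (by linarith) hapos.le
      have h3 : (a : ℝ) * ((m : ℝ) + 1) ^ 2 + b * (m + 1) + c =
        a * (m : ℝ) ^ 2 + b * m + c + (a * (2 * m + 1) + b) := by ring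
      rw [h3]
      linarith [hb'.1]
    exact_mod_cast h1
  have hmono2 : ∀ m n : ℕ, M ≤ m → m ≤ n → f m ≤ f n := by
    intro m n hm hmn
    induction n, hmn using Nat.le_induction with
    | base => exact le_rfl
    | succ n hn ih => exact ih.trans (hmono n (hm.trans hn))
  have hex : ∃ m : ℕ, M ≤ m ∧ x ≤ f m := by
    refine ⟨max M (⌈x⌉₊ + 2), le_max_left _ _, ?_⟩
    set n := max M (⌈x⌉₊ + 2) with hn
    have h1 : x + 2 ≤ n := by
      have h2 : x ≤ ⌈x⌉₊ := Nat.le_ceil x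
      have h3 : ((⌈x⌉₊ + 2 : ℕ) : ℝ) ≤ n := by exact_mod_cast le_max_right _ _
      push_cast at h3
      linarith
    have hx0 : 0 < x := lt_trans (by positivity) hx43
    have h4 := hbig n (le_max_left _ _)
    have h5 : (n : ℝ) ≤ (n : ℝ) ^ 2 / 2 := by nlinarith
    have h6 : (n : ℝ) ^ 2 / 2 ≤ a * (n : ℝ) ^ 2 / 2 := by
      have : (0 : ℝ) ≤ (n : ℝ) ^ 2 := by positivity
      nlinarith
    linarith
  classical
  set m0 := Nat.find hex with hm0
  obtain ⟨hm0M, hm0x⟩ := Nat.find_spec hex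
  rw [← hm0] at hm0M hm0x
  have hm0min : ∀ m < m0, M ≤ m → (f m : ℝ) < x := by
    intro m hm hMm
    by_contra h
    push Not at h
    exact Nat.find_min hex hm ⟨hMm, h⟩
  have hMm0 : M < m0 := by
    rcases Nat.lt_or_ge M m0 with h | h
    · exact h
    · have : m0 = M := le_antisymm h hm0M
      rw [this] at hm0x
      exact absurd hm0x (not_le.2 (hsmall M hM1 le_rfl))
  set K := m0 - 1 with hK
  have hKm0 : K + 1 = m0 := by omega
  have hMK : M ≤ K := by omega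
  have hK1 : 1 ≤ K := hM1.trans hMK
  have hiff : ∀ m : ℕ, 1 ≤ m → ((f m : ℝ) < x ↔ m ≤ K) := by
    intro m hm
    constructor
    · intro h
      by_contra hlt
      have h1 : m0 ≤ m := by omega
      have h2 := hmono2 m0 m hm0M h1
      have h3 : (f m0 : ℝ) ≤ f m := by exact_mod_cast h2
      linarith
    · intro h
      by_cases hmM : m ≤ M
      · exact hsmall m hm hmM
      · exact hm0min m (by omega) (by omega)
  have hKx : (f K : ℝ) < x := (hiff K hK1).2 le_rfl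
  have hK1x : x ≤ f (K + 1) := by rw [hKm0]; exact hm0x
  have hK0 : (0 : ℝ) < K := by exact_mod_cast hK1
  -- bounds for K
  have hKup : (K : ℝ) ≤ y + 2 * L ^ U := by
    have h1 := hlow K hK1
    have h2 : (a : ℝ) * (K * (K - 2 * L ^ U)) < a * y ^ 2 := by
      rw [hyx]; linarith
    have h3 : (K : ℝ) * (K - 2 * L ^ U) < y ^ 2 := lt_of_mul_lt_mul_left h2 hapos.le
    by_contra h
    push Not at h
    nlinarith
  have hKlow : y - 1 - L ^ U ≤ K := by
    have h1 := hup (K + 1) (by omega)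
    push_cast at h1
    have h2 : (a : ℝ) * y ^ 2 ≤ a * ((K + 1) * (K + 1 + 2 * L ^ U)) := by
      rw [hyx]; linarith
    have h3 : y ^ 2 ≤ ((K : ℝ) + 1) * (K + 1 + 2 * L ^ U) := le_of_mul_le_mul_left h2 hapos
    by_contra h
    push Not at h
    nlinarith
  refine ⟨K, hiff, hKlow, hKup, ?_⟩
  -- the logarithm of x
  have hx0 : 0 < x := lt_trans (by positivity) hx43
  have hHx : (H : ℝ) ≤ x := by
    have h1 : (1 : ℝ) ≤ L ^ (2 * U) := one_le_pow₀ (by linarith)
    nlinarith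
  have hlx : L ≤ Real.log x := by
    rw [hL]; exact Real.log_le_log hH0 hHx
  have hlx0 : 0 < Real.log x := by linarith
  have hy2 : L ^ U * L ^ 2 * 100 ≤ y := by
    have : L ^ (U + 2) = L ^ U * L ^ 2 := pow_add _ _ _
    rw [this] at hy
    linarith
  have h2LU : 2 * L ^ U ≤ y := by
    have h1 : (4 : ℝ) ≤ L ^ 2 := by nlinarith
    have h2 := mul_le_mul_of_nonneg_left h1 hLU0.le
    linarith
  -- estimate for large m
  have hterm : ∀ m : ℕ, M ≤ m → m ≤ K → L ≤ Real.log (f m) ∧ Real.log (f m) ≤ Real.log x ∧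
      1 / Real.log (f m) ≤ 1 / Real.log x +
        1 / (L * Real.log x) * (4 * Real.sqrt (2 * y) * (1 / Real.sqrt m)) := by
    intro m hm hmK
    have hm' : (M : ℝ) ≤ m := by exact_mod_cast hm
    have hm0' : (0 : ℝ) < m := by linarith
    have h1 := hbig m hm
    have h2 : (H : ℝ) ≤ a * (m : ℝ) ^ 2 / 2 := by
      have h3 : (4 * L ^ U) ^ 2 ≤ (m : ℝ) ^ 2 := pow_le_pow_left₀ (by positivity) (by linarith) 2
      have h4 : (a : ℝ) * (4 * L ^ U) ^ 2 ≤ a * (m : ℝ) ^ 2 := mul_le_mul_of_nonneg_left h3 hapos.le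
      have h5 : (a : ℝ) * L ^ U ≤ a * (L ^ U) ^ 2 :=
        mul_le_mul_of_nonneg_left (by nlinarith) hapos.le
      nlinarith
    have hfpos : (0 : ℝ) < f m := by linarith
    have h6 : L ≤ Real.log (f m) := by
      rw [hL]; exact Real.log_le_log hH0 (h2.trans h1)
    have h7 : Real.log (f m) ≤ Real.log x :=
      Real.log_le_log hfpos ((hiff m (hM1.trans hm)).2 hmK).le
    refine ⟨h6, h7, ?_⟩
    have h8 : Real.log x - Real.log (f m) ≤ 4 * Real.sqrt (2 * y) * (1 / Real.sqrt m) := by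
      rw [← Real.log_div hx0.ne' hfpos.ne']
      refine le_trans (Real.log_le_log (div_pos hx0 hfpos) ?_) (log_le_sqrt y m hy0 hm0')
      rw [div_le_div_iff₀ hfpos (by positivity), ← hyx]
      have h9 : (a : ℝ) * y ^ 2 * (m : ℝ) ^ 2 = 2 * y ^ 2 * (a * (m : ℝ) ^ 2 / 2) := by ring
      rw [h9]
      exact mul_le_mul_of_nonneg_left h1 (by positivity)
    have hlf0 : 0 < Real.log (f m) := by linarith
    have h10 : 1 / Real.log (f m) - 1 / Real.log x =
        (Real.log x - Real.log (f m)) / (Real.log (f m) * Real.log x) := by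
      field_simp
    have h11 : (Real.log x - Real.log (f m)) / (Real.log (f m) * Real.log x) ≤
        (4 * Real.sqrt (2 * y) * (1 / Real.sqrt m)) / (L * Real.log x) := by
      apply div_le_div₀ (by positivity) h8 (by positivity)
      exact mul_le_mul_of_nonneg_right h6 hlx0.le
    have h12 : (4 * Real.sqrt (2 * y) * (1 / Real.sqrt m)) / (L * Real.log x) =
        1 / (L * Real.log x) * (4 * Real.sqrt (2 * y) * (1 / Real.sqrt m)) := by ring
    linarith
  -- splitting of the sum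
  set S := ∑ m ∈ (Icc 1 K).filter (fun m : ℕ => 2 ≤ a * (m : ℤ) ^ 2 + b * m + c),
        1 / Real.log ((a * (m : ℤ) ^ 2 + b * m + c : ℤ) : ℝ) with hS
  have hS' : S = ∑ m ∈ (Icc 1 K).filter (fun m : ℕ => 2 ≤ f m), 1 / Real.log (f m) := rfl
  have hf2 : ∀ m : ℕ, M ≤ m → m ≤ K → 2 ≤ f m := by
    intro m hm hmK
    have hm' : (M : ℝ) ≤ m := by exact_mod_cast hm
    have h1 := hbig m hm
    have h2 : (2 : ℝ) ≤ f m := by
      have h3 : (4 : ℝ) ≤ m := by linarith
      have h4 : (4 : ℝ) ^ 2 ≤ (m : ℝ) ^ 2 := pow_le_pow_left₀ (by norm_num) h3 2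
      nlinarith
    exact_mod_cast h2
  have hpos : ∀ m : ℕ, 2 ≤ f m → 0 ≤ 1 / Real.log (f m) ∧ 1 / Real.log (f m) ≤ 2 := by
    intro m hm
    have h1 : (2 : ℝ) ≤ f m := by exact_mod_cast hm
    have h2 : Real.log 2 ≤ Real.log (f m) := Real.log_le_log (by norm_num) h1
    have h3 : (1 / 2 : ℝ) < Real.log 2 := by
      have := Real.log_two_gt_d9
      linarith
    have h4 : 0 < Real.log (f m) := by linarith
    refine ⟨by positivity, ?_⟩
    rw [div_le_iff₀ h4]
    linarith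
  have hsub : Icc M K ⊆ (Icc 1 K).filter (fun m : ℕ => 2 ≤ f m) := by
    intro m hm
    rw [Finset.mem_Icc] at hm
    rw [Finset.mem_filter, Finset.mem_Icc]
    exact ⟨⟨hM1.trans hm.1, hm.2⟩, hf2 m hm.1 hm.2⟩
  have hcardIcc : ((Icc M K).card : ℝ) = K + 1 - M := by
    rw [Nat.card_Icc, Nat.cast_sub (by omega)]
    push_cast
    ring
  -- lower bound
  have hlowS : (K + 1 - M) / Real.log x ≤ S := by
    rw [hS']
    calc (K + 1 - M) / Real.log x = ∑ m ∈ Icc M K, 1 / Real.log x := by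
          rw [Finset.sum_const, nsmul_eq_mul, hcardIcc]; ring
      _ ≤ ∑ m ∈ Icc M K, 1 / Real.log (f m) := by
          apply Finset.sum_le_sum
          intro m hm
          rw [Finset.mem_Icc] at hm
          obtain ⟨h1, h2, -⟩ := hterm m hm.1 hm.2
          exact one_div_le_one_div_of_le (by linarith) h2
      _ ≤ _ := by
          apply Finset.sum_le_sum_of_subset_of_nonneg hsub
          intro m hm _
          rw [Finset.mem_filter] at hm
          exact (hpos m hm.2).1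
  -- upper bound
  have hupS : S ≤ 2 * M + (K / Real.log x + 1 / (L * Real.log x) * (16 * y)) := by
    rw [hS']
    have h1 : (Icc 1 K).filter (fun m : ℕ => 2 ≤ f m) ⊆
        ((Icc 1 M).filter (fun m : ℕ => 2 ≤ f m)) ∪ Icc M K := by
      intro m hm
      rw [Finset.mem_filter, Finset.mem_Icc] at hm
      rw [Finset.mem_union, Finset.mem_filter, Finset.mem_Icc, Finset.mem_Icc]
      by_cases h : M ≤ m
      · right; exact ⟨h, hm.1.2⟩
      · left; exact ⟨⟨hm.1.1, by omega⟩, hm.2⟩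
    have h2 : ∀ m ∈ ((Icc 1 M).filter (fun m : ℕ => 2 ≤ f m)) ∪ Icc M K,
        0 ≤ 1 / Real.log (f m) := by
      intro m hm
      rw [Finset.mem_union, Finset.mem_filter, Finset.mem_Icc] at hm
      rcases hm with h | h
      · exact (hpos m h.2).1
      · rw [Finset.mem_Icc] at h
        exact (hpos m (hf2 m h.1 h.2)).1
    have h3 : ∑ m ∈ (Icc 1 M).filter (fun m : ℕ => 2 ≤ f m), 1 / Real.log (f m) ≤ 2 * M := by
      calc _ ≤ ∑ m ∈ (Icc 1 M).filter (fun m : ℕ => 2 ≤ f m), (2 : ℝ) := by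
            apply Finset.sum_le_sum
            intro m hm
            rw [Finset.mem_filter] at hm
            exact (hpos m hm.2).2
        _ = ((Icc 1 M).filter (fun m : ℕ => 2 ≤ f m)).card * 2 := by
            rw [Finset.sum_const, nsmul_eq_mul]
        _ ≤ (M : ℝ) * 2 := by
            apply mul_le_mul_of_nonneg_right _ (by norm_num)
            have := Finset.card_filter_le (Icc 1 M) (fun m : ℕ => 2 ≤ f m)
            rw [Nat.card_Icc] at this
            exact_mod_cast this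
        _ = 2 * M := by ring
    have h4 : ∑ m ∈ Icc M K, 1 / Real.log (f m) ≤
        K / Real.log x + 1 / (L * Real.log x) * (16 * y) := by
      calc _ ≤ ∑ m ∈ Icc M K, (1 / Real.log x +
            1 / (L * Real.log x) * (4 * Real.sqrt (2 * y) * (1 / Real.sqrt m))) := by
            apply Finset.sum_le_sum
            intro m hm
            rw [Finset.mem_Icc] at hm
            exact (hterm m hm.1 hm.2).2.2
        _ ≤ ∑ m ∈ Icc 1 K, (1 / Real.log x +
            1 / (L * Real.log x) * (4 * Real.sqrt (2 * y) * (1 / Real.sqrt m))) := by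
            apply Finset.sum_le_sum_of_subset_of_nonneg
            · intro m hm
              rw [Finset.mem_Icc] at hm ⊢
              exact ⟨hM1.trans hm.1, hm.2⟩
            · intro m _ _
              positivity
        _ = K / Real.log x + 1 / (L * Real.log x) *
            (4 * Real.sqrt (2 * y) * ∑ m ∈ Icc 1 K, (1 / Real.sqrt m)) := by
            rw [Finset.sum_add_distrib, Finset.sum_const, Nat.card_Icc, ← Finset.mul_sum,
              ← Finset.mul_sum, nsmul_eq_mul]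
            congr 1
            rw [Nat.add_sub_cancel]
            ring
        _ ≤ K / Real.log x + 1 / (L * Real.log x) * (16 * y) := by
            apply add_le_add le_rfl
            apply mul_le_mul_of_nonneg_left _ (by positivity)
            have h5 := sum_inv_sqrt K
            have h6 : 4 * Real.sqrt (2 * y) * ∑ m ∈ Icc 1 K, (1 / Real.sqrt (m : ℝ)) ≤
                4 * Real.sqrt (2 * y) * (2 * Real.sqrt K) :=
              mul_le_mul_of_nonneg_left h5 (by positivity)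
            refine h6.trans ?_
            have hK2y : (K : ℝ) ≤ 2 * y := by linarith
            have h7 : Real.sqrt (K : ℝ) ≤ Real.sqrt (2 * y) := Real.sqrt_le_sqrt hK2y
            have h8 : Real.sqrt (2 * y) * Real.sqrt (2 * y) = 2 * y :=
              Real.mul_self_sqrt (by positivity)
            have h9 : Real.sqrt (2 * y) * Real.sqrt K ≤ 2 * y := by
              calc Real.sqrt (2 * y) * Real.sqrt K ≤ Real.sqrt (2 * y) * Real.sqrt (2 * y) :=
                    mul_le_mul_of_nonneg_left h7 (Real.sqrt_nonneg _)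
                _ = 2 * y := h8
            linarith
    calc _ ≤ ∑ m ∈ ((Icc 1 M).filter (fun m : ℕ => 2 ≤ f m)) ∪ Icc M K,
          1 / Real.log (f m) := by
            apply Finset.sum_le_sum_of_subset_of_nonneg h1
            intro m hm _
            exact h2 m hm
      _ ≤ ∑ m ∈ (Icc 1 M).filter (fun m : ℕ => 2 ≤ f m), 1 / Real.log (f m) +
          ∑ m ∈ Icc M K, 1 / Real.log (f m) := by
            rw [← Finset.sum_union_inter]
            apply le_add_of_nonneg_right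
            apply Finset.sum_nonneg
            intro m hm
            rw [Finset.mem_inter] at hm
            exact h2 m (Finset.mem_union_left _ hm.1)
      _ ≤ _ := add_le_add h3 h4
  -- conclusion
  have hT : 20 / L * (y / Real.log x) = 20 * y / (L * Real.log x) := by
    field_simp
  rw [hT]
  have hLlx : 0 < L * Real.log x := by positivity
  have hM' : 2 * (M : ℝ) ≤ y / (L * Real.log x) := by
    rw [le_div_iff₀ hLlx]
    have h1 : L * Real.log x ≤ 3 * L ^ 2 := by nlinarith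
    calc 2 * (M : ℝ) * (L * Real.log x) ≤ 2 * (6 * L ^ U) * (3 * L ^ 2) := by
          apply mul_le_mul (by linarith) h1 hLlx.le (by positivity)
      _ ≤ y := by nlinarith [mul_pos hLU0 (pow_pos hL0 2)]
  have hLUy : L ^ U * L ≤ y / 100 := by
    have h1 : L ^ U * L ≤ L ^ U * L ^ 2 := mul_le_mul_of_nonneg_left (by nlinarith) hLU0.le
    linarith
  have hd : ∀ z : ℝ, z ≤ 10 * L ^ U → z / Real.log x ≤ y / (L * Real.log x) := by
    intro z hz
    rw [div_le_div_iff₀ hlx0 hLlx]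
    have h1 : z * L ≤ y := by
      have := mul_le_mul_of_nonneg_right hz hL0.le
      linarith
    calc z * (L * Real.log x) = (z * L) * Real.log x := by ring
      _ ≤ y * Real.log x := mul_le_mul_of_nonneg_right h1 hlx0.le
  rw [abs_le]
  constructor
  · have h1 := hd (y - (K + 1 - M)) (by linarith)
    rw [sub_div] at h1
    have h2 : 0 ≤ y / (L * Real.log x) := by positivity
    have h3 : 20 * y / (L * Real.log x) = 20 * (y / (L * Real.log x)) := by ring
    rw [h3]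
    linarith
  · have h1 := hd (K - y) (by linarith)
    rw [sub_div] at h1
    have h2 : 0 ≤ y / (L * Real.log x) := by positivity
    have h3 : 20 * y / (L * Real.log x) = 20 * (y / (L * Real.log x)) := by ring
    have h4 : 1 / (L * Real.log x) * (16 * y) = 16 * (y / (L * Real.log x)) := by ring
    rw [h3]
    rw [h4] at hupS
    linarith

theorem ev_log (k : ℕ) (C δ : ℝ) (hC : 0 < C) (hδ : 0 < δ) :
    ∀ᶠ t : ℝ in Filter.atTop, C * Real.log t ^ k ≤ t ^ δ := by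
  have h := (isLittleO_log_rpow_rpow_atTop (k : ℝ) hδ).def (c := 1 / C) (by positivity)
  filter_upwards [h, Filter.eventually_ge_atTop 1] with t ht ht1
  rw [Real.rpow_natCast, Real.norm_of_nonneg (pow_nonneg (Real.log_nonneg ht1) k),
    Real.norm_of_nonneg (Real.rpow_nonneg (by linarith) δ)] at ht
  have h1 := mul_le_mul_of_nonneg_left ht hC.le
  have h2 : C * (1 / C * t ^ δ) = t ^ δ := by field_simp
  linarith

theorem count_form_aux (ε : ℝ) (hε : 0 < ε) (U B H : ℕ) (L : ℝ) (hL : L = Real.log H)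
    (hL2 : 2 ≤ L) (hH : 2 ≤ H) (h2 : 100 * L ^ (U + 2) ≤ (H : ℝ) ^ (ε / 2))
    (h3 : 2 * (H : ℝ) ^ (ε / 3) ≤ (H : ℝ) ^ (ε / 2)) (h5 : 4 * L ^ (U + B) ≤ H)
    (a b c : ℤ) (ha : (H : ℝ) / L ^ U ≤ a) (haH : a ≤ H) (hb : |b| ≤ H) (hc : |c| ≤ H)
    (x : ℝ) (hx1 : (H : ℝ) ^ (1 + ε) ≤ x) (hx2 : x * L ^ (U + 2 * B + 2) ≤ (H : ℝ) ^ 3) :
    ∃ K : ℕ, (∀ m : ℕ, 1 ≤ m → (((a * (m : ℤ) ^ 2 + b * m + c : ℤ) : ℝ) < x ↔ m ≤ K)) ∧
    (H : ℝ) ^ (ε / 3) ≤ K ∧ (K : ℝ) * L ^ B ≤ H ∧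
    |∑ m ∈ (Icc 1 K).filter (fun m : ℕ => 2 ≤ a * (m : ℤ) ^ 2 + b * m + c),
      1 / Real.log ((a * (m : ℤ) ^ 2 + b * m + c : ℤ) : ℝ) -
        Real.sqrt x / (Real.sqrt a * Real.log x)| ≤
      20 / L * (Real.sqrt x / (Real.sqrt a * Real.log x)) := by
  have hHr : (2 : ℝ) ≤ H := by exact_mod_cast hH
  have hH0 : (0 : ℝ) < H := by linarith
  have hL0 : 0 < L := by linarith
  have hLU0 : 0 < L ^ U := pow_pos hL0 _
  have hapos : (0 : ℝ) < a := lt_of_lt_of_le (div_pos hH0 hLU0) ha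
  have haHr : (a : ℝ) ≤ H := by exact_mod_cast haH
  have hHa : (H : ℝ) ≤ a * L ^ U := by rwa [div_le_iff₀ hLU0] at ha
  have hHε : (H : ℝ) ^ (1 + ε) = H * ((H : ℝ) ^ (ε / 2)) ^ 2 := by
    rw [Real.rpow_add hH0, Real.rpow_one, ← Real.rpow_natCast, ← Real.rpow_mul hH0.le]
    congr 2
    push_cast
    ring
  have hq0 : 0 < (H : ℝ) ^ (ε / 2) := Real.rpow_pos_of_pos hH0 _
  have hx0 : 0 < x := lt_of_lt_of_le (Real.rpow_pos_of_pos hH0 _) hx1
  set y := Real.sqrt (x / a) with hy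
  have hy2 : y ^ 2 = x / a := Real.sq_sqrt (by positivity)
  have hyx : (a : ℝ) * y ^ 2 = x := by rw [hy2]; field_simp
  have hqy : (H : ℝ) ^ (ε / 2) ≤ y := by
    apply Real.le_sqrt_of_sq_le
    rw [le_div_iff₀ hapos]
    rw [hHε] at hx1
    have := mul_le_mul_of_nonneg_left haHr (sq_nonneg ((H : ℝ) ^ (ε / 2)))
    linarith
  have hy0 : 0 < y := lt_of_lt_of_le hq0 hqy
  have hx43 : 43 * (H : ℝ) * L ^ (2 * U) < x := by
    refine lt_of_lt_of_le ?_ hx1
    rw [hHε]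
    have e1 : (100 * L ^ (U + 2)) ^ 2 ≤ ((H : ℝ) ^ (ε / 2)) ^ 2 :=
      pow_le_pow_left₀ (by positivity) h2 2
    have e2 : (100 * L ^ (U + 2)) ^ 2 = 10000 * (L ^ 4 * L ^ (2 * U)) := by
      ring
    have e3 : (1 : ℝ) ≤ L ^ 4 := one_le_pow₀ (by linarith)
    have e4 : 0 < L ^ (2 * U) := by positivity
    have e5 : L ^ (2 * U) ≤ L ^ 4 * L ^ (2 * U) := le_mul_of_one_le_left e4.le e3
    have e6 : 43 * L ^ (2 * U) < ((H : ℝ) ^ (ε / 2)) ^ 2 := by linarith
    calc 43 * (H : ℝ) * L ^ (2 * U) = H * (43 * L ^ (2 * U)) := by ring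
      _ < H * ((H : ℝ) ^ (ε / 2)) ^ 2 := mul_lt_mul_of_pos_left e6 hH0
  have hx3 : Real.log x ≤ 3 * L := by
    have e1 : x ≤ (H : ℝ) ^ 3 := by
      have e2 : (1 : ℝ) ≤ L ^ (U + 2 * B + 2) := one_le_pow₀ (by linarith)
      have e3 : x ≤ x * L ^ (U + 2 * B + 2) := le_mul_of_one_le_right hx0.le e2
      linarith
    have e4 := Real.log_le_log hx0 e1
    rw [Real.log_pow] at e4
    rw [hL]
    exact_mod_cast e4
  obtain ⟨K, hK1, hK2, hK3, hK4⟩ := core U H a b c x y L hL hL2 hH ha haH hb hc hx3 hx43 hy0 hyx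
    (h2.trans hqy)
  have hLU : 400 * L ^ U ≤ y := by
    have e1 : L ^ (U + 2) = L ^ U * L ^ 2 := pow_add _ _ _
    have e2 : (4 : ℝ) ≤ L ^ 2 := by nlinarith
    have e3 := mul_le_mul_of_nonneg_left e2 hLU0.le
    have e4 := h2.trans hqy
    rw [e1] at e4
    linarith
  have hLU1 : 1 ≤ L ^ U := one_le_pow₀ (by linarith)
  refine ⟨K, hK1, ?_, ?_, ?_⟩
  · linarith
  · have e1 : y * L ^ (B + 1) ≤ H := by
      have e2 : (y * L ^ (B + 1)) ^ 2 ≤ (H : ℝ) ^ 2 := by
        have e3 : (a : ℝ) * (y * L ^ (B + 1)) ^ 2 * L ^ U ≤ (a * L ^ U) * (H : ℝ) ^ 2 := by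
          calc (a : ℝ) * (y * L ^ (B + 1)) ^ 2 * L ^ U =
              ((a : ℝ) * y ^ 2) * L ^ (U + 2 * B + 2) := by ring
            _ = x * L ^ (U + 2 * B + 2) := by rw [hyx]
            _ ≤ (H : ℝ) ^ 3 := hx2
            _ = H * (H : ℝ) ^ 2 := by ring
            _ ≤ (a * L ^ U) * (H : ℝ) ^ 2 := mul_le_mul_of_nonneg_right hHa (by positivity)
        have e4 : (a : ℝ) * (y * L ^ (B + 1)) ^ 2 * L ^ U =
            (a * L ^ U) * (y * L ^ (B + 1)) ^ 2 := by ring
        rw [e4] at e3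
        exact le_of_mul_le_mul_left e3 (by positivity)
      exact (pow_le_pow_iff_left₀ (by positivity) hH0.le two_ne_zero).1 e2
    have e5 : y * L ^ B * 2 ≤ H := by
      have e6 : y * L ^ B * 2 ≤ y * L ^ B * L := mul_le_mul_of_nonneg_left hL2 (by positivity)
      have e7 : y * L ^ B * L = y * L ^ (B + 1) := by ring
      linarith
    have e8 : (K : ℝ) * L ^ B ≤ (y + 2 * L ^ U) * L ^ B :=
      mul_le_mul_of_nonneg_right hK3 (by positivity)
    have e9 : (y + 2 * L ^ U) * L ^ B = y * L ^ B + 2 * L ^ (U + B) := by ring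
    linarith
  · have e1 : Real.sqrt x / (Real.sqrt a * Real.log x) = y / Real.log x := by
      rw [hy, Real.sqrt_div hx0.le, div_div]
    rw [e1]
    exact hK4

/-- X11: the counting function in the form of the problem. For `f = a m² + b m + c` with
`a ≥ H / (log H)^U`, the `m ≥ 1` with `f(m) < x` are `1, ..., K` with `K` close to `√(x/a)`, and
`∑ 1 / log f(m)` is `√x / (√a log x) (1 + O(1 / log H))`. -/
theorem count_form (ε : ℝ) (hε : 0 < ε) : ∃ C0 : ℝ, ∀ U B : ℕ, ∃ B' H0 : ℕ, ∀ H : ℕ, H0 ≤ H →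
    ∀ a b c : ℤ, (H : ℝ) / Real.log H ^ U ≤ a → a ≤ H → |b| ≤ H → |c| ≤ H → ∀ x : ℝ,
    (H : ℝ) ^ (1 + ε) ≤ x → x * Real.log H ^ B' ≤ (H : ℝ) ^ 3 → ∃ K : ℕ,
    (∀ m : ℕ, 1 ≤ m → (((a * (m : ℤ) ^ 2 + b * m + c : ℤ) : ℝ) < x ↔ m ≤ K)) ∧
    (H : ℝ) ^ (ε / 3) ≤ K ∧ (K : ℝ) * Real.log H ^ B ≤ H ∧
    |∑ m ∈ (Icc 1 K).filter (fun m : ℕ => 2 ≤ a * (m : ℤ) ^ 2 + b * m + c),
      1 / Real.log ((a * (m : ℤ) ^ 2 + b * m + c : ℤ) : ℝ) - Real.sqrt x / (Real.sqrt a * Real.log x)| ≤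
      C0 / Real.log H * (Real.sqrt x / (Real.sqrt a * Real.log x)) := by
  refine ⟨20, fun U B => ⟨U + 2 * B + 2, ?_⟩⟩
  have hev : ∀ᶠ t : ℝ in Filter.atTop, 2 ≤ Real.log t ∧ 100 * Real.log t ^ (U + 2) ≤ t ^ (ε / 2) ∧
      2 * t ^ (ε / 3) ≤ t ^ (ε / 2) ∧ 4 * Real.log t ^ (U + B) ≤ t ∧ 2 ≤ t := by
    have e1 := Real.tendsto_log_atTop.eventually_ge_atTop 2
    have e2 := ev_log (U + 2) 100 (ε / 2) (by norm_num) (by positivity)
    have e3 := (tendsto_rpow_atTop (show 0 < ε / 6 by positivity)).eventually_ge_atTop 2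
    have e4 := ev_log (U + B) 4 1 (by norm_num) one_pos
    filter_upwards [e1, e2, e3, e4, Filter.eventually_ge_atTop 2] with t h1 h2 h3 h4 h5
    refine ⟨h1, h2, ?_, by simpa using h4, h5⟩
    have e5 : t ^ (ε / 2) = t ^ (ε / 6) * t ^ (ε / 3) := by
      rw [← Real.rpow_add (by linarith)]
      congr 1
      ring
    rw [e5]
    exact mul_le_mul_of_nonneg_right h3 (Real.rpow_nonneg (by linarith) _)
  obtain ⟨H0, hH0⟩ := Filter.eventually_atTop.1 (tendsto_natCast_atTop_atTop.eventually hev)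
  refine ⟨H0, fun H hH a b c ha haH hb hc x hx1 hx2 => ?_⟩
  obtain ⟨h1, h2, h3, h4, h5⟩ := hH0 H hH
  exact count_form_aux ε hε U B H (Real.log H) rfl h1 (by exact_mod_cast h5) h2 h3 h4 a b c ha haH
    hb hc x hx1 hx2

end Pool.Agent.H455R2.EC
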