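import Pool.Agent.H300R2.FB.Defs

/-!
Task G4: polynomials of height at most `H` are in the box.
-/

namespace Pool.Agent.H455R2.FB

open Finset Polynomial
open Pool.Agent.H300R2.BH Pool.Agent.H300R2.FB

theorem coeff_Rr (j : ℕ) (r : Fin (j - 1) → ℤ) (n : ℕ) :
    (Rr j r).coeff n = ∑ i : Fin (j - 1), if n = (i : ℕ) + 1 then r i else 0 := by
  unfold Rr
  rw [Polynomial.finsetSum_coeff]
  apply Finset.sum_congr rfl
  intro i _
  rw [Polynomial.coeff_C_mul_X_pow]

/-- G4: every polynomial of degree `j`, height at most `H` and positive leading coefficient is in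
the box -/
theorem FP_surj (j H : ℕ) (hj : 1 ≤ j) (F : ℤ[X]) (hd : F.natDegree = j)
    (hl : 0 < F.leadingCoeff) (hH : ∀ i, |F.coeff i| ≤ H) :
    ∃ r ∈ bx j (fun _ => H), ∃ a ∈ Ioc 0 (0 + (2 * H + 1)), ∃ d ∈ Ioc 0 H,
      FF (C (-(H : ℤ) - 1) + 0 + Rr j r) j 1 a d = F := by
  have h0 := abs_le.1 (hH 0)
  have hjj := abs_le.1 (hH j)
  have hlj : 0 < F.coeff j := by rw [← hd]; exact hl
  refine ⟨fun i => F.coeff ((i : ℕ) + 1), ?_, (F.coeff 0 + H + 1).toNat, ?_,
    (F.coeff j).toNat, ?_, ?_⟩
  · unfold bx
    rw [Fintype.mem_piFinset]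
    intro i
    rw [Finset.mem_Icc]
    exact abs_le.1 (hH _)
  · rw [Finset.mem_Ioc]
    omega
  · rw [Finset.mem_Ioc]
    omega
  · ext n
    unfold FF
    have ha : (((F.coeff 0 + H + 1).toNat : ℕ) : ℤ) = F.coeff 0 + H + 1 := by
      rw [Int.toNat_of_nonneg]; omega
    have hdd : (((F.coeff j).toNat : ℕ) : ℤ) = F.coeff j := by
      rw [Int.toNat_of_nonneg]; omega
    rw [ha, hdd]
    rw [Polynomial.coeff_add, Polynomial.coeff_add, Polynomial.coeff_add, Polynomial.coeff_add,
      coeff_Rr, Polynomial.coeff_C_mul_X_pow, Polynomial.coeff_zero, Polynomial.coeff_C,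
      Polynomial.coeff_C]
    rcases Nat.eq_zero_or_pos n with hn | hn
    · subst hn
      have hs : (∑ i : Fin (j - 1), if 0 = (i : ℕ) + 1 then F.coeff ((i : ℕ) + 1) else 0) = 0 := by
        apply Finset.sum_eq_zero
        intro i _
        rw [if_neg (by omega)]
      rw [hs, if_pos rfl, if_pos rfl, if_neg (by omega)]
      ring
    · rw [if_neg (by omega), if_neg (by omega)]
      by_cases hnj : n < j
      · have hs : (∑ i : Fin (j - 1), if n = (i : ℕ) + 1 then F.coeff ((i : ℕ) + 1) else 0) =
            F.coeff n := by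
          rw [Finset.sum_eq_single (⟨n - 1, by omega⟩ : Fin (j - 1))]
          · have h1 : n = (n - 1) + 1 := by omega
            simp only
            rw [if_pos h1, ← h1]
          · intro i _ hi
            rw [if_neg]
            intro h
            apply hi
            ext
            simp only
            omega
          · intro h
            exact absurd (Finset.mem_univ _) h
        rw [hs, if_neg (by omega)]
        ring
      · have hs : (∑ i : Fin (j - 1), if n = (i : ℕ) + 1 then F.coeff ((i : ℕ) + 1) else 0) = 0 := by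
          apply Finset.sum_eq_zero
          intro i _
          have := i.2
          rw [if_neg (by omega)]
        rw [hs]
        by_cases hnj2 : n = j
        · rw [if_pos hnj2, hnj2]; ring
        · rw [if_neg hnj2, Polynomial.coeff_eq_zero_of_natDegree_lt (by omega)]; ring

end Pool.Agent.H455R2.FB
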