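import Pool.Agent.H961R2.Lev.Stubs

open MeasureTheory Set Filter Topology InnerProductSpace Complex

namespace H961Lev

namespace K3aux

/-- the binomial weights -/
noncomputable def cc (j : ℕ) (m : ℤ) : ℝ := (Nat.choose (2 * j) (j + m.natAbs) : ℝ) / 4 ^ j

lemma cc_nonneg (j : ℕ) (m : ℤ) : 0 ≤ cc j m := by unfold cc; positivity

lemma cc_zero {j : ℕ} {m : ℤ} (h : m ∉ Finset.Icc (-(j : ℤ)) j) : cc j m = 0 := by
  unfold cc
  rw [Finset.mem_Icc] at h
  have h1 : 2 * j < j + m.natAbs := by omega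
  rw [Nat.choose_eq_zero_of_lt h1]
  simp

lemma A2_one (j : ℕ) : A2^[j] (fun _ => (1 : ℝ)) = fun _ => 1 := by
  induction j with
  | zero => rfl
  | succ j ih =>
    rw [Function.iterate_succ_apply', ih]
    funext i
    unfold A2
    norm_num

lemma cc_sum (h : S_K2) (j : ℕ) : ∑ m ∈ Finset.Icc (-(j : ℤ)) j, cc j m = 1 := by
  have h1 := h (fun _ => 1) j 0
  rw [A2_one] at h1
  simp only [mul_one] at h1
  exact h1.symm

lemma hasSum_cc (j : ℕ) (f : ℤ → ℝ) :
    HasSum (fun m => cc j m * f m) (∑ m ∈ Finset.Icc (-(j : ℤ)) j, cc j m * f m) := by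
  apply hasSum_sum_of_ne_finset_zero
  intro m hm
  rw [cc_zero hm, zero_mul]

end K3aux

open K3aux in
theorem T_K3 : S_K2 → S_K3 := by
  intro h2 W k hW hWs hk Z B hZ i
  have hB : 0 ≤ B := (abs_nonneg _).trans (hZ 0)
  -- the majorant
  have hG : Summable (fun p : ℕ × ℤ => W p.1 * cc p.1 p.2) := by
    rw [summable_prod_of_nonneg (fun p => mul_nonneg (hW _) (cc_nonneg _ _))]
    refine ⟨fun j => ?_, ?_⟩
    · have h3 := (hasSum_cc j (fun _ => 1)).summable.mul_left (W j)
      simpa using h3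
    · have h3 : (fun j : ℕ => ∑' m : ℤ, W j * cc j m) = W := by
        funext j
        rw [tsum_mul_left]
        have h4 := (hasSum_cc j (fun _ => 1)).tsum_eq
        simp only [mul_one] at h4
        rw [h4, cc_sum h2, mul_one]
      have h5 : Summable (fun j : ℕ => ∑' m : ℤ, W j * cc j m) := by rw [h3]; exact hWs
      exact h5
  have hF : Summable (fun p : ℕ × ℤ => W p.1 * cc p.1 p.2 * Z (i + p.2)) := by
    refine Summable.of_norm_bounded (hG.mul_right B) (fun p => ?_)
    rw [norm_mul, Real.norm_eq_abs, Real.norm_eq_abs,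
      abs_of_nonneg (mul_nonneg (hW p.1) (cc_nonneg p.1 p.2))]
    exact mul_le_mul_of_nonneg_left (hZ _) (mul_nonneg (hW _) (cc_nonneg _ _))
  obtain ⟨a, ha⟩ := hF
  have h5 : HasSum (fun j : ℕ => W j * (A2^[j] Z) i) a := by
    refine ha.prod_fiberwise (fun j => ?_)
    have h6 := (hasSum_cc j (fun m => Z (i + m))).mul_left (W j)
    have h6' : ∑ m ∈ Finset.Icc (-(j : ℤ)) j, cc j m * Z (i + m) = (A2^[j] Z) i := (h2 Z j i).symm
    rw [h6'] at h6
    have e : (fun m => W j * cc j m * Z (i + m)) = fun m => W j * (cc j m * Z (i + m)) := by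
      funext m; ring
    rw [e]
    exact h6
  have h7 : HasSum (fun m : ℤ => k m * Z (i + m)) a := by
    have h8 : HasSum (fun q : ℤ × ℕ => W q.2 * cc q.2 q.1 * Z (i + q.1)) a :=
      (Equiv.prodComm ℤ ℕ).hasSum_iff.2 ha
    refine h8.prod_fiberwise (fun m => ?_)
    exact (hk m).mul_right (Z (i + m))
  refine ⟨h7.summable, ?_⟩
  rw [h7.tsum_eq]
  unfold Kop
  exact h5.tsum_eq.symm

end H961Lev
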