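import Pool.Agent.H961R2.Lev.Stubs

open MeasureTheory Set Filter Topology InnerProductSpace Complex

namespace H961Lev

namespace P3aux

lemma norm_zet_sq {R : ℝ} (t : ℝ) : ‖zet R t‖ ^ 2 = 2 * R ^ 2 * (1 - Real.cos (t / R)) := by
  have h1 : ‖zet R t‖ ^ 2 = Complex.normSq (zet R t) := (Complex.normSq_eq_norm_sq _).symm
  rw [h1, Complex.normSq_apply]
  have hre : (zet R t).re = R * Real.sin (t / R) := by
    unfold zet
    rw [Complex.add_re, Complex.ofReal_re, Complex.re_ofReal_mul, Complex.I_re, mul_zero, add_zero]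
  have him : (zet R t).im = R * (1 - Real.cos (t / R)) := by
    unfold zet
    rw [Complex.add_im, Complex.ofReal_im, Complex.im_ofReal_mul, Complex.I_im, mul_one, zero_add]
  rw [hre, him]
  have h2 := Real.sin_sq_add_cos_sq (t / R)
  linear_combination R ^ 2 * h2

lemma norm_zet_ge {R t : ℝ} (hR : 0 < R) (ht : |t| ≤ Real.pi * R) :
    2 / Real.pi * |t| ≤ ‖zet R t‖ := by
  have hpi := Real.pi_pos
  have h1 : |t / R| ≤ Real.pi := by
    rw [abs_div, abs_of_pos hR, div_le_iff₀ hR]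
    exact ht
  have h2 := Real.cos_le_one_sub_mul_cos_sq h1
  have h3 : (2 / Real.pi * |t|) ^ 2 ≤ ‖zet R t‖ ^ 2 := by
    rw [norm_zet_sq, mul_pow, sq_abs]
    have h4 : 2 * R ^ 2 * (2 / Real.pi ^ 2 * (t / R) ^ 2) ≤ 2 * R ^ 2 * (1 - Real.cos (t / R)) :=
      mul_le_mul_of_nonneg_left (by linarith) (by positivity)
    refine le_trans (le_of_eq ?_) h4
    field_simp
  exact le_of_sq_le_sq h3 (norm_nonneg _)

end P3aux

open P3aux in
theorem T_P3 : S_P3 := by
  intro z z' hz hz' ε hε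
  set y := z.im with hy
  set y' := z'.im with hy'
  set a := ‖z‖ with ha
  set a' := ‖z'‖ with ha'
  have ha0 : 0 ≤ a := norm_nonneg _
  have ha'0 : 0 ≤ a' := norm_nonneg _
  obtain ⟨e, he0, he1, hee⟩ : ∃ e : ℝ, 0 < e ∧ e ≤ 1 ∧ (1 + e) ^ 2 ≤ 1 + ε := by
    refine ⟨min (ε / 3) 1, by positivity, min_le_right _ _, ?_⟩
    have h1 : min (ε / 3) 1 ≤ ε / 3 := min_le_left _ _
    have h2 : min (ε / 3) 1 ≤ 1 := min_le_right _ _
    have h3 : 0 < min (ε / 3) 1 := by positivity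
    nlinarith
  have hpi := Real.pi_pos
  set X₀ : ℝ := (2 * (2 * a + a') + a' + 1) / e + a + a' + 1 with hX₀
  have hX₀pos : 0 < X₀ := by positivity
  refine ⟨Real.pi / 2 * X₀, by positivity, ?_⟩
  intro M hM
  refine ⟨a ^ 2 / y + a' ^ 2 / (y' * e) + a' ^ 2 / y' + 1, by positivity, ?_⟩
  intro R hR t ht1 ht2
  have hR0 : 0 < R := lt_of_lt_of_le (by positivity) hR
  have h1 : X₀ ≤ ‖zet R t‖ := by
    refine le_trans ?_ (norm_zet_ge hR0 ht2)
    have h2 : Real.pi / 2 * X₀ ≤ |t| := hM.trans ht1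
    calc X₀ = 2 / Real.pi * (Real.pi / 2 * X₀) := by field_simp
      _ ≤ 2 / Real.pi * |t| := mul_le_mul_of_nonneg_left h2 (by positivity)
  set X := ‖zet R t‖ with hX
  -- bounds for R
  have hRa : a ^ 2 < R * y := by
    have h2 : a ^ 2 / y < R := by
      have : 0 ≤ a' ^ 2 / (y' * e) := by positivity
      have : 0 ≤ a' ^ 2 / y' := by positivity
      linarith
    rwa [div_lt_iff₀ hz] at h2
  have hRa' : a' ^ 2 < R * y' := by
    have h2 : a' ^ 2 / y' < R := by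
      have : 0 ≤ a' ^ 2 / (y' * e) := by positivity
      have : 0 ≤ a ^ 2 / y := by positivity
      linarith
    rwa [div_lt_iff₀ hz'] at h2
  have hRe : a' ^ 2 < R * (y' * e) := by
    have h2 : a' ^ 2 / (y' * e) < R := by
      have : 0 ≤ a' ^ 2 / y' := by positivity
      have : 0 ≤ a ^ 2 / y := by positivity
      linarith
    rwa [div_lt_iff₀ (by positivity)] at h2
  have hn1 : 0 < 2 * R * y - a ^ 2 := by
    have : 0 < R * y := by positivity
    linarith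
  have hn2 : 0 < 2 * R * y' - a' ^ 2 := by
    have : 0 < R * y' := by positivity
    linarith
  -- distances
  have hd1 : X - a ≤ ‖zet R t - z‖ := norm_sub_norm_le _ _
  have hd2 : ‖zet R t - z'‖ ≤ X + a' := norm_sub_le _ _
  have hXa : 0 < X - a := by
    have : 0 ≤ (2 * (2 * a + a') + a' + 1) / e := by positivity
    linarith
  have hd1pos : 0 < ‖zet R t - z‖ := lt_of_lt_of_le hXa hd1
  have hXa' : 0 < ‖zet R t - z'‖ := by
    have h2 : X - a' ≤ ‖zet R t - z'‖ := norm_sub_norm_le _ _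
    have : 0 ≤ (2 * (2 * a + a') + a' + 1) / e := by positivity
    linarith
  have hAA : ‖zet R t - z'‖ ^ 2 ≤ (1 + e) * ‖zet R t - z‖ ^ 2 := by
    have h2 : ‖zet R t - z'‖ ^ 2 ≤ (X + a') ^ 2 := pow_le_pow_left₀ (norm_nonneg _) hd2 2
    have h3 : (X - a) ^ 2 ≤ ‖zet R t - z‖ ^ 2 := pow_le_pow_left₀ hXa.le hd1 2
    have h4 : (X + a') ^ 2 ≤ (1 + e) * (X - a) ^ 2 := by
      have h5 : 2 * (2 * a + a') + a' + 1 ≤ e * X := by
        have h6 : (2 * (2 * a + a') + a' + 1) / e ≤ X := by linarith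
        rw [div_le_iff₀ he0] at h6
        linarith
      have hX0 : 0 < X := by linarith
      have h7 : (2 * (2 * a + a') + a' + 1) * X ≤ e * X * X := mul_le_mul_of_nonneg_right h5 hX0.le
      have h8 : a' ≤ X := by
        have : 0 ≤ (2 * (2 * a + a') + a' + 1) / e := by positivity
        linarith
      have h9 : a' * a' ≤ a' * X := mul_le_mul_of_nonneg_left h8 ha'0
      have h10 : 0 ≤ (1 - e) * (a * X) := mul_nonneg (by linarith) (mul_nonneg ha0 hX0.le)
      have h11 : 0 ≤ (1 + e) * a ^ 2 := by positivity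
      nlinarith
    calc _ ≤ (X + a') ^ 2 := h2
      _ ≤ (1 + e) * (X - a) ^ 2 := h4
      _ ≤ _ := mul_le_mul_of_nonneg_left h3 (by positivity)
  have hBB : (2 * R * y - a ^ 2) * y' ≤ (1 + e) * y * (2 * R * y' - a' ^ 2) := by
    have h2 : y * a' ^ 2 ≤ y * (R * (y' * e)) := mul_le_mul_of_nonneg_left hRe.le hz.le
    have h3 : 0 ≤ a ^ 2 * y' := by positivity
    have h4 : 0 ≤ (1 - e) * (y * a' ^ 2) := mul_nonneg (by linarith) (by positivity)
    nlinarith
  unfold KR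
  refine ⟨by positivity, ?_⟩
  rw [← hy, ← hy', ← ha, ← ha']
  have hgoal : (1 + ε) * (y / y') * ((2 * R * y' - a' ^ 2) / (R * ‖zet R t - z'‖ ^ 2)) =
      ((1 + ε) * y * (2 * R * y' - a' ^ 2)) / (y' * (R * ‖zet R t - z'‖ ^ 2)) := by
    field_simp
  rw [hgoal, div_le_div_iff₀ (by positivity) (by positivity)]
  have h2 : (2 * R * y - a ^ 2) * y' * ‖zet R t - z'‖ ^ 2 ≤
      ((1 + e) * y * (2 * R * y' - a' ^ 2)) * ((1 + e) * ‖zet R t - z‖ ^ 2) :=
    mul_le_mul hBB hAA (by positivity) (by positivity)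
  have h3 : (1 + e) ^ 2 * (y * (2 * R * y' - a' ^ 2) * ‖zet R t - z‖ ^ 2) ≤
      (1 + ε) * (y * (2 * R * y' - a' ^ 2) * ‖zet R t - z‖ ^ 2) :=
    mul_le_mul_of_nonneg_right hee (by positivity)
  have h4 : (2 * R * y - a ^ 2) * y' * ‖zet R t - z'‖ ^ 2 ≤
      (1 + ε) * (y * (2 * R * y' - a' ^ 2) * ‖zet R t - z‖ ^ 2) := by
    refine h2.trans (le_trans (le_of_eq ?_) h3)
    ring
  calc (2 * R * y - a ^ 2) * (y' * (R * ‖zet R t - z'‖ ^ 2)) =
        R * ((2 * R * y - a ^ 2) * y' * ‖zet R t - z'‖ ^ 2) := by ring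
    _ ≤ R * ((1 + ε) * (y * (2 * R * y' - a' ^ 2) * ‖zet R t - z‖ ^ 2)) :=
        mul_le_mul_of_nonneg_left h4 hR0.le
    _ = _ := by ring

end H961Lev
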