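import Pool.Agent.H300R2.FB.Defs

/-!
Derivatives of the logarithm of a perturbed monomial (task F5 of helper300's project).
-/

set_option autoImplicit false

namespace Pool.Agent.H455R2.FB

open Finset Polynomial
open Pool.Agent.H300R2.FB

/-- the perturbed monomial as a complex polynomial -/
noncomputable def lcP (j : ℕ) (b : Fin (j - 1) → ℝ) : ℂ[X] :=
  X ^ j + ∑ i : Fin (j - 1), C ((b i : ℝ) : ℂ) * X ^ ((i : ℕ) + 1)

lemma lc_eval (j : ℕ) (b : Fin (j - 1) → ℝ) (t : ℝ) :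
    (lcP j b).eval (t : ℂ) = ((pw j b t : ℝ) : ℂ) := by
  unfold lcP pw tR
  simp [eval_finsetSum]

lemma lc_eval_c (j : ℕ) (b : Fin (j - 1) → ℝ) (z : ℂ) :
    (lcP j b).eval z = z ^ j + ∑ i : Fin (j - 1), ((b i : ℝ) : ℂ) * z ^ ((i : ℕ) + 1) := by
  unfold lcP
  simp [eval_finsetSum]

lemma lc_degree (j : ℕ) (b : Fin (j - 1) → ℝ) :
    (∑ i : Fin (j - 1), C ((b i : ℝ) : ℂ) * X ^ ((i : ℕ) + 1)).degree < (j : WithBot ℕ) := by
  refine lt_of_le_of_lt (degree_sum_le _ _) ?_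
  rw [Finset.sup_lt_iff (by exact WithBot.bot_lt_coe j)]
  intro i _
  refine lt_of_le_of_lt (degree_C_mul_X_pow_le _ _) ?_
  have := i.2
  exact_mod_cast (by omega : (i : ℕ) + 1 < j)

lemma lc_natDegree (j : ℕ) (b : Fin (j - 1) → ℝ) : (lcP j b).natDegree = j := by
  have : (lcP j b).degree = (j : WithBot ℕ) := by
    unfold lcP
    rw [degree_add_eq_left_of_degree_lt]
    · exact degree_X_pow j
    · rw [degree_X_pow]; exact lc_degree j b
  exact natDegree_eq_of_degree_eq_some this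

lemma lc_card (j : ℕ) (b : Fin (j - 1) → ℝ) : (lcP j b).roots.card = j := by
  rw [IsAlgClosed.card_roots_eq_natDegree, lc_natDegree]

lemma lc_root_bound (j : ℕ) (ρ κ : ℝ) (hρ0 : 0 < ρ) (hρ1 : ρ ≤ 1)
    (hκ0 : 0 < κ) (hκ : κ * j ≤ ρ ^ j / 2) (J : ℕ) (hJ : 1 ≤ J) (b : Fin (j - 1) → ℝ)
    (hb : ∀ i, |b i| ≤ κ * (J : ℝ) ^ (j - 1 - (i : ℕ))) (z : ℂ) (hz : (lcP j b).eval z = 0) :
    ‖z‖ ≤ ρ * J := by
  by_contra hcon
  rw [not_le] at hcon
  have hJ0 : (0 : ℝ) < J := by exact_mod_cast hJ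
  have hz0 : 0 < ‖z‖ := lt_trans (by positivity) hcon
  rw [lc_eval_c] at hz
  have h1 : ‖z‖ ^ j ≤ ∑ i : Fin (j - 1), |b i| * ‖z‖ ^ ((i : ℕ) + 1) := by
    have : z ^ j = -∑ i : Fin (j - 1), ((b i : ℝ) : ℂ) * z ^ ((i : ℕ) + 1) :=
      eq_neg_of_add_eq_zero_left hz
    calc ‖z‖ ^ j = ‖z ^ j‖ := (norm_pow _ _).symm
      _ = ‖∑ i : Fin (j - 1), ((b i : ℝ) : ℂ) * z ^ ((i : ℕ) + 1)‖ := by rw [this, norm_neg]
      _ ≤ ∑ i : Fin (j - 1), ‖((b i : ℝ) : ℂ) * z ^ ((i : ℕ) + 1)‖ := norm_sum_le _ _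
      _ = _ := by
        refine Finset.sum_congr rfl fun i _ => ?_
        rw [norm_mul, norm_pow, Complex.norm_real, Real.norm_eq_abs]
  have hJz : (J : ℝ) ≤ ‖z‖ / ρ := by
    rw [le_div_iff₀ hρ0]; linarith
  have h2 : ∀ i : Fin (j - 1), |b i| * ‖z‖ ^ ((i : ℕ) + 1) ≤ κ / ρ ^ j * ‖z‖ ^ j := by
    intro i
    have hi := i.2
    have h3 : (J : ℝ) ^ (j - 1 - (i : ℕ)) ≤ ‖z‖ ^ (j - 1 - (i : ℕ)) / ρ ^ j := by
      calc (J : ℝ) ^ (j - 1 - (i : ℕ)) ≤ (‖z‖ / ρ) ^ (j - 1 - (i : ℕ)) :=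
            pow_le_pow_left₀ hJ0.le hJz _
        _ = ‖z‖ ^ (j - 1 - (i : ℕ)) / ρ ^ (j - 1 - (i : ℕ)) := div_pow _ _ _
        _ ≤ _ := by
          apply div_le_div_of_nonneg_left (by positivity) (by positivity)
          exact pow_le_pow_of_le_one hρ0.le hρ1 (by omega)
    calc |b i| * ‖z‖ ^ ((i : ℕ) + 1)
        ≤ (κ * (‖z‖ ^ (j - 1 - (i : ℕ)) / ρ ^ j)) * ‖z‖ ^ ((i : ℕ) + 1) := by
          apply mul_le_mul_of_nonneg_right _ (by positivity)
          exact (hb i).trans (mul_le_mul_of_nonneg_left h3 hκ0.le)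
      _ = κ / ρ ^ j * (‖z‖ ^ (j - 1 - (i : ℕ)) * ‖z‖ ^ ((i : ℕ) + 1)) := by ring
      _ = κ / ρ ^ j * ‖z‖ ^ j := by
          rw [← pow_add]; congr 2; omega
  have h4 : ∑ i : Fin (j - 1), |b i| * ‖z‖ ^ ((i : ℕ) + 1) ≤ 1 / 2 * ‖z‖ ^ j := by
    calc ∑ i : Fin (j - 1), |b i| * ‖z‖ ^ ((i : ℕ) + 1)
        ≤ ∑ _i : Fin (j - 1), κ / ρ ^ j * ‖z‖ ^ j := Finset.sum_le_sum fun i _ => h2 i
      _ = ((j - 1 : ℕ) : ℝ) * (κ / ρ ^ j) * ‖z‖ ^ j := by
          rw [Finset.sum_const, Finset.card_univ, Fintype.card_fin, nsmul_eq_mul]; ring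
      _ ≤ 1 / 2 * ‖z‖ ^ j := by
          apply mul_le_mul_of_nonneg_right _ (by positivity)
          have h5 : ((j - 1 : ℕ) : ℝ) ≤ j := by exact_mod_cast Nat.sub_le j 1
          calc ((j - 1 : ℕ) : ℝ) * (κ / ρ ^ j) ≤ j * (κ / ρ ^ j) :=
                mul_le_mul_of_nonneg_right h5 (by positivity)
            _ = (κ * j) / ρ ^ j := by ring
            _ ≤ (ρ ^ j / 2) / ρ ^ j := by
                apply div_le_div_of_nonneg_right hκ (by positivity)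
            _ = 1 / 2 := by field_simp
  have h6 : 0 < ‖z‖ ^ j := by positivity
  linarith

lemma lc_pow_sub_one (w : ℂ) (m : ℕ) : ‖(1 + w) ^ m - 1‖ ≤ (1 + ‖w‖) ^ m - 1 := by
  induction m with
  | zero => simp
  | succ m ih =>
    have h1 : (1 + w) ^ (m + 1) - 1 = ((1 + w) ^ m - 1) * (1 + w) + w := by ring
    calc ‖(1 + w) ^ (m + 1) - 1‖ = ‖((1 + w) ^ m - 1) * (1 + w) + w‖ := by rw [h1]
      _ ≤ ‖(1 + w) ^ m - 1‖ * ‖1 + w‖ + ‖w‖ := by
        refine (norm_add_le _ _).trans ?_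
        rw [norm_mul]
      _ ≤ ((1 + ‖w‖) ^ m - 1) * (1 + ‖w‖) + ‖w‖ := by
        have h2 : ‖1 + w‖ ≤ 1 + ‖w‖ := by
          refine (norm_add_le _ _).trans ?_
          simp
        have h3 : 0 ≤ (1 + ‖w‖) ^ m - 1 := by
          have := one_le_pow₀ (M₀ := ℝ) (a := 1 + ‖w‖) (n := m) (by linarith [norm_nonneg w])
          linarith
        have := mul_le_mul ih h2 (norm_nonneg _) h3
        linarith
      _ = (1 + ‖w‖) ^ (m + 1) - 1 := by ring

lemma lc_re_inv (v : ℂ) (hv : ‖v - 1‖ ≤ 1 / 2) : 2 / 9 ≤ (v⁻¹).re ∧ (v⁻¹).re ≤ 2 := by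
  have h1 : 1 / 2 ≤ v.re := by
    have := (Complex.abs_re_le_norm (v - 1)).trans hv
    rw [Complex.sub_re, Complex.one_re, abs_le] at this
    linarith [this.1]
  have h2 : ‖v‖ ≤ 3 / 2 := by
    calc ‖v‖ = ‖(v - 1) + 1‖ := by ring_nf
      _ ≤ ‖v - 1‖ + ‖(1 : ℂ)‖ := norm_add_le _ _
      _ ≤ 3 / 2 := by rw [norm_one]; linarith
  have h3 : 1 / 2 ≤ ‖v‖ := h1.trans ((le_abs_self _).trans (Complex.abs_re_le_norm v))
  have h4 : 0 < ‖v‖ := by linarith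
  constructor
  · rw [Complex.inv_re, Complex.normSq_eq_norm_sq, div_le_div_iff₀ (by norm_num) (by positivity)]
    nlinarith
  · calc (v⁻¹).re ≤ ‖v⁻¹‖ := (le_abs_self _).trans (Complex.abs_re_le_norm _)
      _ = ‖v‖⁻¹ := norm_inv v
      _ ≤ (1 / 2 : ℝ)⁻¹ := inv_anti₀ (by norm_num) h3
      _ = 2 := by norm_num

lemma lc_rho (M : ℕ) : (1 + 1 / (4 * ((M : ℝ) + 1))) ^ M ≤ 3 / 2 := by
  have h0 : (0 : ℝ) < 4 * ((M : ℝ) + 1) := by positivity
  have h1 : 1 + 1 / (4 * ((M : ℝ) + 1)) ≤ Real.exp (1 / (4 * ((M : ℝ) + 1))) := by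
    have := Real.add_one_le_exp (1 / (4 * ((M : ℝ) + 1)))
    linarith
  calc (1 + 1 / (4 * ((M : ℝ) + 1))) ^ M ≤ (Real.exp (1 / (4 * ((M : ℝ) + 1)))) ^ M :=
        pow_le_pow_left₀ (by positivity) h1 _
    _ = Real.exp (M * (1 / (4 * ((M : ℝ) + 1)))) := by rw [← Real.exp_nat_mul]
    _ ≤ Real.exp (1 / 4) := by
        apply Real.exp_le_exp.2
        rw [mul_one_div, div_le_div_iff₀ h0 (by norm_num)]
        linarith
    _ ≤ 3 / 2 := by
        have h2 : (Real.exp (1 / 4)) ^ 4 = Real.exp 1 := by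
          rw [← Real.exp_nat_mul]; norm_num
        have h3 := Real.exp_one_lt_d9
        by_contra hc
        rw [not_le] at hc
        have h4 : (3 / 2 : ℝ) ^ 4 < (Real.exp (1 / 4)) ^ 4 := by gcongr
        rw [h2] at h4
        norm_num at h4
        linarith

/-- bounds for one root -/
lemma lc_one (M m J : ℕ) (hm : m ≤ M) (hJ : 1 ≤ J) (z : ℂ)
    (hz : ‖z‖ ≤ 1 / (4 * ((M : ℝ) + 1)) * J) (t : ℝ) (ht : t ∈ Set.Icc (J : ℝ) (3 * J)) :
    2 / 9 * (1 / 3) ^ M ≤ (((t : ℂ) - z) ^ m)⁻¹.re * (J : ℝ) ^ m ∧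
      (((t : ℂ) - z) ^ m)⁻¹.re * (J : ℝ) ^ m ≤ 2 := by
  have hJ0 : (0 : ℝ) < J := by exact_mod_cast hJ
  have ht0 : 0 < t := lt_of_lt_of_le hJ0 ht.1
  have htc : (t : ℂ) ≠ 0 := by exact_mod_cast ht0.ne'
  set v : ℂ := (1 + (-(z / t))) ^ m with hvdef
  have h1 : ‖-(z / (t : ℂ))‖ ≤ 1 / (4 * ((M : ℝ) + 1)) := by
    rw [norm_neg, norm_div, Complex.norm_real, Real.norm_eq_abs, abs_of_pos ht0,
      div_le_iff₀ ht0]
    refine hz.trans (mul_le_mul_of_nonneg_left ht.1 (by positivity))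
  have h2 : ‖v - 1‖ ≤ 1 / 2 := by
    refine (lc_pow_sub_one _ m).trans ?_
    have h3 : (1 + ‖-(z / (t : ℂ))‖) ^ m ≤ (1 + 1 / (4 * ((M : ℝ) + 1))) ^ M := by
      calc (1 + ‖-(z / (t : ℂ))‖) ^ m ≤ (1 + 1 / (4 * ((M : ℝ) + 1))) ^ m :=
            pow_le_pow_left₀ (by positivity) (by linarith) _
        _ ≤ _ := pow_le_pow_right₀ (by
            have : (0 : ℝ) ≤ 1 / (4 * ((M : ℝ) + 1)) := by positivity
            linarith) hm
    linarith [lc_rho M]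
  obtain ⟨h4, h5⟩ := lc_re_inv v h2
  have h6 : ((t : ℂ) - z) ^ m = ((t ^ m : ℝ) : ℂ) * v := by
    rw [hvdef, Complex.ofReal_pow, ← mul_pow]
    congr 1
    field_simp
    ring
  have h7 : (((t : ℂ) - z) ^ m)⁻¹.re * (J : ℝ) ^ m = (v⁻¹).re * (J / t) ^ m := by
    rw [h6, mul_inv, ← Complex.ofReal_inv, Complex.re_ofReal_mul, div_pow]
    field_simp
  rw [h7]
  have h8 : (J / t) ≤ 1 := by rw [div_le_one ht0]; exact ht.1
  have h9 : 1 / 3 ≤ (J / t) := by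
    rw [div_le_div_iff₀ (by norm_num) ht0]; linarith [ht.2]
  have h10 : (J / t) ^ m ≤ 1 := pow_le_one₀ (by positivity) h8
  have h11 : (1 / 3 : ℝ) ^ M ≤ (J / t) ^ m :=
    calc (1 / 3 : ℝ) ^ M ≤ (1 / 3 : ℝ) ^ m := pow_le_pow_of_le_one (by norm_num) (by norm_num) hm
      _ ≤ _ := pow_le_pow_left₀ (by norm_num) h9 _
  constructor
  · exact mul_le_mul h4 h11 (by positivity) (by linarith)
  · calc (v⁻¹).re * (J / t) ^ m ≤ 2 * 1 := mul_le_mul h5 h10 (by positivity) (by norm_num)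
      _ = 2 := by norm_num

lemma lc_msum_re (s : Multiset ℂ) (f : ℂ → ℂ) :
    ((s.map f).sum).re = (s.map (fun z => (f z).re)).sum := by
  induction s using Multiset.induction with
  | empty => simp
  | cons a s ih => simp [ih]

lemma lc_msum_mul (s : Multiset ℂ) (f : ℂ → ℝ) (c : ℝ) :
    ((s.map f).sum) * c = (s.map (fun z => f z * c)).sum := by
  induction s using Multiset.induction with
  | empty => simp
  | cons a s ih => simp [add_mul, ih]

lemma lc_msum_deriv (s : Multiset ℂ) (f : ℂ → ℝ → ℝ) (f' : ℂ → ℝ) (t : ℝ)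
    (h : ∀ z ∈ s, HasDerivAt (f z) (f' z) t) :
    HasDerivAt (fun t => (s.map (fun z => f z t)).sum) ((s.map f').sum) t := by
  induction s using Multiset.induction with
  | empty => simpa using hasDerivAt_const t (0 : ℝ)
  | cons a s ih =>
    simp only [Multiset.map_cons, Multiset.sum_cons]
    exact (h a (by simp)).add (ih fun z hz => h z (by simp [hz]))

/-- derivative of one power -/
lemma lc_pow_deriv (z : ℂ) (m : ℕ) (t : ℝ) (h : (t : ℂ) - z ≠ 0) :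
    HasDerivAt (fun t : ℝ => (((t : ℂ) - z) ^ (m + 1))⁻¹.re)
      (-((m : ℝ) + 1) * (((t : ℂ) - z) ^ (m + 2))⁻¹.re) t := by
  have h1 : HasDerivAt (fun s : ℂ => ((s - z) ^ (m + 1))⁻¹)
      (-(((m : ℂ) + 1) * (((t : ℂ) - z) ^ (m + 2))⁻¹)) (t : ℂ) := by
    have h2 : HasDerivAt (fun s : ℂ => s - z) 1 (t : ℂ) := (hasDerivAt_id _).sub_const z
    have h3 := (h2.pow (m + 1)).inv (pow_ne_zero _ h)
    refine h3.congr_deriv ?_
    simp only [Pi.pow_apply]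
    push_cast
    field_simp
    ring
  have h4 := h1.comp_ofReal
  have h5 := (Complex.reCLM.hasFDerivAt (x := (((t : ℂ) - z) ^ (m + 1))⁻¹)).comp_hasDerivAt t h4
  refine h5.congr_deriv ?_
  simp only [Complex.reCLM_apply]
  have h6 : -(((m : ℂ) + 1) * (((t : ℂ) - z) ^ (m + 2))⁻¹) =
      ((-((m : ℝ) + 1) : ℝ) : ℂ) * (((t : ℂ) - z) ^ (m + 2))⁻¹ := by
    push_cast; ring
  rw [h6, Complex.re_ofReal_mul]

/-- the chain of derivatives -/
noncomputable def lcPhi (j : ℕ) (b : Fin (j - 1) → ℝ) : ℕ → ℝ → ℝ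
  | 0, t => Real.log (pw j b t)
  | m + 1, t => (-1) ^ m * (m.factorial : ℝ) *
      ((lcP j b).roots.map (fun z => (((t : ℂ) - z) ^ (m + 1))⁻¹.re)).sum

/-- F5. Derivatives of the logarithm of a perturbed monomial. -/
theorem log_chain (j : ℕ) (hj : 1 ≤ j) (M : ℕ) : ∃ κ : ℝ, 0 < κ ∧ ∃ c0 C0 : ℝ, 0 < c0 ∧
    ∀ (J : ℕ) (b : Fin (j - 1) → ℝ), 1 ≤ J →
    (∀ i, |b i| ≤ κ * (J : ℝ) ^ (j - 1 - (i : ℕ))) → ∃ φ : ℕ → ℝ → ℝ,
    (∀ t ∈ Set.Icc (J : ℝ) (3 * J), φ 0 t = Real.log (pw j b t)) ∧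
    (∀ m ≤ M, ∀ t ∈ Set.Icc (J : ℝ) (3 * J), HasDerivAt (φ m) (φ (m + 1) t) t) ∧
    (∀ m, 1 ≤ m → m ≤ M → ∀ t ∈ Set.Icc (J : ℝ) (3 * J),
      c0 ≤ (-1) ^ (m + 1) * φ m t * (J : ℝ) ^ m ∧ (-1) ^ (m + 1) * φ m t * (J : ℝ) ^ m ≤ C0) := by
  have hj0 : (0 : ℝ) < j := by exact_mod_cast hj
  set ρ : ℝ := 1 / (4 * ((M : ℝ) + 1)) with hρ
  have hρ0 : 0 < ρ := by positivity
  have hρ4 : ρ ≤ 1 / 4 := by
    rw [hρ, div_le_div_iff₀ (by positivity) (by norm_num)]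
    have : (0 : ℝ) ≤ M := Nat.cast_nonneg M
    linarith
  refine ⟨ρ ^ j / (2 * j), by positivity, 2 / 9 * (1 / 3) ^ M, (M.factorial : ℝ) * (j * 2),
    by positivity, ?_⟩
  intro J b hJ hb
  have hJ0 : (0 : ℝ) < J := by exact_mod_cast hJ
  have hroot : ∀ z ∈ (lcP j b).roots, ‖z‖ ≤ ρ * J := by
    intro z hz
    have hz' : (lcP j b).eval z = 0 := by
      have := (mem_roots'.1 hz).2
      exact this
    refine lc_root_bound j ρ (ρ ^ j / (2 * j)) hρ0 (by linarith) (by positivity) ?_ J hJ b hb z hz'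
    apply le_of_eq
    field_simp
  have hne : ∀ z ∈ (lcP j b).roots, ∀ t ∈ Set.Icc (J : ℝ) (3 * J), (t : ℂ) - z ≠ 0 := by
    intro z hz t ht h0
    have h1 : z = (t : ℂ) := (sub_eq_zero.1 h0).symm
    have h2 := hroot z hz
    rw [h1, Complex.norm_real, Real.norm_eq_abs] at h2
    have h3 := le_abs_self t
    nlinarith [ht.1]
  have hpne : ∀ t ∈ Set.Icc (J : ℝ) (3 * J), (lcP j b).eval (t : ℂ) ≠ 0 := by
    intro t ht h0
    have hP0 : lcP j b ≠ 0 := by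
      intro h
      have := lc_natDegree j b
      rw [h, natDegree_zero] at this
      omega
    have h1 : (t : ℂ) ∈ (lcP j b).roots := (mem_roots hP0).2 h0
    exact hne _ h1 t ht (sub_self _)
  refine ⟨lcPhi j b, fun t _ => rfl, ?_, ?_⟩
  · intro m _ t ht
    rcases m with _ | m
    · -- derivative of the logarithm
      have hp := hpne t ht
      have h1 : HasDerivAt (fun s : ℝ => (lcP j b).eval (s : ℂ)) ((lcP j b).derivative.eval (t : ℂ))
          t := ((lcP j b).hasDerivAt (t : ℂ)).comp_ofReal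
      have h2 := (Complex.reCLM.hasFDerivAt (x := (lcP j b).eval (t : ℂ))).comp_hasDerivAt t h1
      have h3 : HasDerivAt (pw j b) ((lcP j b).derivative.eval (t : ℂ)).re t := by
        refine h2.congr_of_eventuallyEq ?_ 
        exact Filter.Eventually.of_forall fun s => by
          show pw j b s = ((lcP j b).eval (s : ℂ)).re
          rw [lc_eval, Complex.ofReal_re]
      have hpw : pw j b t ≠ 0 := by
        intro h0
        apply hp
        rw [lc_eval, h0, Complex.ofReal_zero]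
      have h4 := h3.log hpw
      show HasDerivAt (fun s => Real.log (pw j b s)) (lcPhi j b 1 t) t
      refine h4.congr_deriv ?_
      have h5 := (IsAlgClosed.splits (lcP j b)).eval_derivative_div_eval_of_ne_zero hp
      have h6 : ((lcP j b).derivative.eval (t : ℂ)).re / pw j b t =
          ((lcP j b).derivative.eval (t : ℂ) / (lcP j b).eval (t : ℂ)).re := by
        rw [lc_eval, Complex.div_ofReal_re]
      rw [h6, h5, lc_msum_re]
      show _ = (-1 : ℝ) ^ 0 * (Nat.factorial 0 : ℝ) *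
        ((lcP j b).roots.map (fun z => (((t : ℂ) - z) ^ (0 + 1))⁻¹.re)).sum
      simp [one_div]
    · have h1 := (lc_msum_deriv (lcP j b).roots
        (fun z s => (((s : ℂ) - z) ^ (m + 1))⁻¹.re)
        (fun z => -((m : ℝ) + 1) * (((t : ℂ) - z) ^ (m + 2))⁻¹.re) t
        (fun z hz => lc_pow_deriv z m t (hne z hz t ht))).const_mul
          ((-1) ^ m * (m.factorial : ℝ))
      refine h1.congr_deriv ?_
      show _ = (-1 : ℝ) ^ (m + 1) * ((m + 1).factorial : ℝ) *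
        ((lcP j b).roots.map (fun z => (((t : ℂ) - z) ^ (m + 1 + 1))⁻¹.re)).sum
      rw [Multiset.sum_map_mul_left, Nat.factorial_succ]
      push_cast
      ring
  · intro m hm1 hmM t ht
    obtain ⟨n, rfl⟩ : ∃ n, m = n + 1 := ⟨m - 1, by omega⟩
    have h1 : (-1 : ℝ) ^ (n + 1 + 1) * lcPhi j b (n + 1) t * (J : ℝ) ^ (n + 1) =
        (n.factorial : ℝ) * ((lcP j b).roots.map
          (fun z => (((t : ℂ) - z) ^ (n + 1))⁻¹.re * (J : ℝ) ^ (n + 1))).sum := by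
      rw [← lc_msum_mul]
      show (-1 : ℝ) ^ (n + 1 + 1) * ((-1) ^ n * (n.factorial : ℝ) * _) * (J : ℝ) ^ (n + 1) = _
      have : (-1 : ℝ) ^ (n + 1 + 1) * (-1) ^ n = 1 := by
        rw [← pow_add]
        exact Even.neg_one_pow ⟨n + 1, by ring⟩
      calc _ = ((-1 : ℝ) ^ (n + 1 + 1) * (-1) ^ n) * ((n.factorial : ℝ) *
            (((lcP j b).roots.map (fun z => (((t : ℂ) - z) ^ (n + 1))⁻¹.re)).sum *
              (J : ℝ) ^ (n + 1))) := by ring
        _ = _ := by rw [this, one_mul]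
    rw [h1]
    have hb1 : ∀ x ∈ (lcP j b).roots.map
          (fun z => (((t : ℂ) - z) ^ (n + 1))⁻¹.re * (J : ℝ) ^ (n + 1)),
        2 / 9 * (1 / 3) ^ M ≤ x := by
      intro x hx
      obtain ⟨z, hz, rfl⟩ := Multiset.mem_map.1 hx
      exact (lc_one M (n + 1) J hmM hJ z (hroot z hz) t ht).1
    have hb2 : ∀ x ∈ (lcP j b).roots.map
          (fun z => (((t : ℂ) - z) ^ (n + 1))⁻¹.re * (J : ℝ) ^ (n + 1)), x ≤ 2 := by
      intro x hx
      obtain ⟨z, hz, rfl⟩ := Multiset.mem_map.1 hx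
      exact (lc_one M (n + 1) J hmM hJ z (hroot z hz) t ht).2
    have hs1 := Multiset.card_nsmul_le_sum hb1
    have hs2 := Multiset.sum_le_card_nsmul _ _ hb2
    rw [Multiset.card_map, lc_card, nsmul_eq_mul] at hs1 hs2
    have hf1 : (1 : ℝ) ≤ n.factorial := by exact_mod_cast Nat.factorial_pos n
    have hf2 : (n.factorial : ℝ) ≤ M.factorial := by
      exact_mod_cast Nat.factorial_le (by omega : n ≤ M)
    have hj1 : (1 : ℝ) ≤ j := by exact_mod_cast hj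
    have hc : (0 : ℝ) < 2 / 9 * (1 / 3) ^ M := by positivity
    generalize ((lcP j b).roots.map
          (fun z => (((t : ℂ) - z) ^ (n + 1))⁻¹.re * (J : ℝ) ^ (n + 1))).sum = S at hs1 hs2
    generalize (2 / 9 * (1 / 3) ^ M : ℝ) = c at hs1 hc
    have hS : 0 ≤ S := le_trans (by positivity) hs1
    constructor
    · calc c = 1 * (1 * c) := by ring
        _ ≤ (n.factorial : ℝ) * (j * c) := by
          apply mul_le_mul hf1 _ (by positivity) (by positivity)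
          exact mul_le_mul_of_nonneg_right hj1 hc.le
        _ ≤ _ := mul_le_mul_of_nonneg_left hs1 (by positivity)
    · exact mul_le_mul hf2 hs2 hS (by positivity)

end Pool.Agent.H455R2.FB
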